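import Mathlib

set_option autoImplicit false

namespace Q5.Friendly

open Finset

variable {V : Type*} [DecidableEq V]

/-- every vertex of `A` has an out-neighbour in `A` -/
def Good (N : V → Finset V) (A : Finset V) : Prop := ∀ x ∈ A, ∃ y ∈ N x, y ∈ A

/-- `u` and `v` lie in disjoint good subsets of `S` -/
def Sep (S : Finset V) (N : V → Finset V) (u v : V) : Prop :=
  ∃ U W : Finset V, U ⊆ S ∧ W ⊆ S ∧ Disjoint U W ∧ u ∈ U ∧ v ∈ W ∧ Good N U ∧ Good N W

structure Inst (S : Finset V) (N : V → Finset V) (f : V → V) (u v : V) : Prop where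
  hu : u ∈ S
  hv : v ∈ S
  ne : u ≠ v
  vu : v ∈ N u
  uv : u ∈ N v
  sub : ∀ x ∈ S, N x ⊆ S
  deg : ∀ x ∈ S, x ∈ N x ∨ 3 ≤ (N x).card ∨ ((N x).card = 2 ∧ f x ∈ N x ∧ f x ∈ N (f x))
  inj : ∀ x ∈ S, ∀ y ∈ S, x ∉ N x → y ∉ N y → (N x).card < 3 → (N y).card < 3 →
    f x = f y → x = y

def mu (S : Finset V) (N : V → Finset V) : ℕ := S.card + ∑ x ∈ S, (N x).card

theorem Sep.symm {S : Finset V} {N : V → Finset V} {u v : V} (h : Sep S N u v) :
    Sep S N v u := by
  obtain ⟨U, W, h1, h2, h3, h4, h5, h6, h7⟩ := h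
  exact ⟨W, U, h2, h1, h3.symm, h5, h4, h7, h6⟩

theorem Inst.symm {S : Finset V} {N : V → Finset V} {f : V → V} {u v : V}
    (h : Inst S N f u v) : Inst S N f v u :=
  ⟨h.hv, h.hu, h.ne.symm, h.uv, h.vu, h.sub, h.deg, h.inj⟩

/-- adding the two arcs between the starting vertices -/
def addArcs (N : V → Finset V) (u v : V) : V → Finset V := fun x =>
  if x = u then insert v (N x) else if x = v then insert u (N x) else N x

theorem subset_addArcs (N : V → Finset V) (u v x : V) : N x ⊆ addArcs N u v x := by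
  unfold addArcs
  split_ifs
  · exact subset_insert _ _
  · exact subset_insert _ _
  · exact Subset.rfl

theorem card_addArcs (N : V → Finset V) (u v x : V) :
    (addArcs N u v x).card ≤ (N x).card + (if x = u then 1 else 0) + (if x = v then 1 else 0) := by
  unfold addArcs
  split_ifs with h1 h2
  · have := card_insert_le v (N x); omega
  · have := card_insert_le v (N x); omega
  · have := card_insert_le u (N x); omega
  · omega

theorem sep_add {S : Finset V} {N : V → Finset V} {u v : V} (h : Sep S (addArcs N u v) u v) :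
    Sep S N u v := by
  obtain ⟨U, W, h1, h2, h3, h4, h5, h6, h7⟩ := h
  refine ⟨U, W, h1, h2, h3, h4, h5, ?_, ?_⟩
  · intro x hx
    obtain ⟨y, hy, hyU⟩ := h6 x hx
    unfold addArcs at hy
    split_ifs at hy with h8 h9
    · rcases mem_insert.1 hy with rfl | hy
      · exact absurd h5 (disjoint_left.1 h3 hyU)
      · exact ⟨y, hy, hyU⟩
    · subst h9; exact absurd h5 (disjoint_left.1 h3 hx)
    · exact ⟨y, hy, hyU⟩
  · intro x hx
    obtain ⟨y, hy, hyU⟩ := h7 x hx
    unfold addArcs at hy
    split_ifs at hy with h8 h9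
    · subst h8; exact absurd hx (disjoint_left.1 h3 h4)
    · rcases mem_insert.1 hy with rfl | hy
      · exact absurd hyU (disjoint_left.1 h3 h4)
      · exact ⟨y, hy, hyU⟩
    · exact ⟨y, hy, hyU⟩

theorem sep_mono {S : Finset V} {N N' : V → Finset V} {u v : V} (hN : ∀ x, N' x ⊆ N x)
    (h : Sep S N' u v) : Sep S N u v := by
  obtain ⟨U, W, h1, h2, h3, h4, h5, h6, h7⟩ := h
  refine ⟨U, W, h1, h2, h3, h4, h5, fun x hx => ?_, fun x hx => ?_⟩
  · obtain ⟨y, hy, hyU⟩ := h6 x hx; exact ⟨y, hN x hy, hyU⟩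
  · obtain ⟨y, hy, hyU⟩ := h7 x hx; exact ⟨y, hN x hy, hyU⟩

/-- the map identifying `x` with `y` -/
def ph (x y : V) : V → V := fun w => if w = x then y else w

theorem ph_self (x y : V) : ph x y x = y := by simp [ph]

theorem ph_of_ne {x y w : V} (h : w ≠ x) : ph x y w = w := by simp [ph, h]

theorem sep_lift {S : Finset V} {N : V → Finset V} {u v x y : V} (hsub : ∀ z ∈ S, N z ⊆ S)
    (hu : u ∈ S) (hv : v ∈ S) (hxy : y ∈ N x) (hne : y ≠ x)
    (h : Sep (S.erase x) (fun z => (N z).image (ph x y)) (ph x y u) (ph x y v)) :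
    Sep S N u v := by
  obtain ⟨U, W, h1, h2, h3, h4, h5, h6, h7⟩ := h
  have key : ∀ A : Finset V, A ⊆ S.erase x → Good (fun z => (N z).image (ph x y)) A →
      Good N (S.filter (fun w => ph x y w ∈ A)) := by
    intro A hA hG w hw
    rw [mem_filter] at hw
    obtain ⟨hwS, hwA⟩ := hw
    by_cases hwx : w = x
    · subst hwx
      rw [ph_self] at hwA
      refine ⟨y, hxy, ?_⟩
      rw [mem_filter, ph_of_ne hne]
      exact ⟨hsub w hwS hxy, hwA⟩
    · rw [ph_of_ne hwx] at hwA
      obtain ⟨q, hq, hqA⟩ := hG w hwA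
      obtain ⟨r, hr, rfl⟩ := mem_image.1 hq
      exact ⟨r, hr, mem_filter.2 ⟨hsub w hwS hr, hqA⟩⟩
  refine ⟨S.filter (fun w => ph x y w ∈ U), S.filter (fun w => ph x y w ∈ W), filter_subset _ _,
    filter_subset _ _, ?_, mem_filter.2 ⟨hu, h4⟩, mem_filter.2 ⟨hv, h5⟩, key U h1 h6, key W h2 h7⟩
  rw [disjoint_left]
  intro w hw hw'
  exact disjoint_left.1 h3 (mem_filter.1 hw).2 (mem_filter.1 hw').2

theorem card_image_ph {x y : V} {A : Finset V} (h : ¬(x ∈ A ∧ y ∈ A)) :
    (A.image (ph x y)).card = A.card := by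
  apply card_image_of_injOn
  intro p hp q hq hpq
  by_cases h1 : p = x <;> by_cases h2 : q = x
  · rw [h1, h2]
  · subst h1
    rw [ph_self, ph_of_ne h2] at hpq
    exact absurd ⟨hp, hpq ▸ hq⟩ h
  · subst h2
    rw [ph_self, ph_of_ne h1] at hpq
    exact absurd ⟨hq, hpq ▸ hp⟩ h
  · rwa [ph_of_ne h1, ph_of_ne h2] at hpq

theorem card_le_image_ph {x y : V} (A : Finset V) :
    A.card ≤ (A.image (ph x y)).card + 1 := by
  have h1 : (A.erase x).image (ph x y) ⊆ A.image (ph x y) := image_subset_image (erase_subset _ _)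
  have h2 : ((A.erase x).image (ph x y)).card = (A.erase x).card :=
    card_image_ph (fun h => by simp at h)
  have h3 := card_le_card h1
  have h4 := pred_card_le_card_erase (s := A) (a := x)
  omega

theorem mem_image_ph_self {x y z : V} {A : Finset V} (hz : z ≠ x) (h : z ∈ A) :
    z ∈ A.image (ph x y) := mem_image.2 ⟨z, h, ph_of_ne hz⟩

variable {S : Finset V} {N : V → Finset V} {f : V → V} {u v : V}

theorem contract (I : Inst S N f u v)
    (IH : ∀ (S' : Finset V) (N' : V → Finset V) (f' : V → V) (u' v' : V), Inst S' N' f' u' v' →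
      mu S' N' < mu S N → Sep S' N' u' v')
    {x y : V} (hx : x ∈ S) (hxy : y ∈ N x) (hxx : x ∉ N x)
    (h1 : ¬(x = u ∧ y = v)) (h2 : ¬(x = v ∧ y = u))
    (H1 : ∀ z ∈ S, ∀ z' ∈ S, z ∉ N z → z' ∉ N z' → x ∈ N z → y ∈ N z → x ∈ N z' → y ∈ N z' →
      z = z')
    (H2 : ∀ z ∈ S, z ∉ N z → x ∈ N z → y ∈ N z → (x ∈ N y ∨ y ∈ N y) ∧
      ∀ z' ∈ S, z' ≠ x → z' ∉ N z' → (N z').card < 3 → f z' ≠ y) :
    Sep S N u v := by
  classical
  have hyx : y ≠ x := fun h => hxx (h ▸ hxy)
  have hyS : y ∈ S := I.sub x hx hxy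
  apply sep_lift I.sub I.hu I.hv hxy hyx
  apply sep_add
  set N1 : V → Finset V := fun z => (N z).image (ph x y) with hN1
  set u' := ph x y u with hu'
  set v' := ph x y v with hv'
  have hne' : u' ≠ v' := by
    intro h
    by_cases hux : u = x
    · have hvx : v ≠ x := fun h' => I.ne (hux.trans h'.symm)
      rw [hu', hv', hux, ph_self, ph_of_ne hvx] at h
      exact h1 ⟨hux.symm, h⟩
    · by_cases hvx : v = x
      · rw [hu', hv', hvx, ph_self, ph_of_ne hux] at h
        exact h2 ⟨hvx.symm, h.symm⟩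
      · rw [hu', hv', ph_of_ne hux, ph_of_ne hvx] at h
        exact I.ne h
  have hphS : ∀ w ∈ S, ph x y w ∈ S.erase x := by
    intro w hw
    by_cases hwx : w = x
    · rw [hwx, ph_self]; exact mem_erase.2 ⟨hyx, hyS⟩
    · rw [ph_of_ne hwx]; exact mem_erase.2 ⟨hwx, hw⟩
  have hsub1 : ∀ z ∈ S.erase x, N1 z ⊆ S.erase x := by
    intro z hz w hw
    obtain ⟨r, hr, rfl⟩ := mem_image.1 hw
    exact hphS r (I.sub z (mem_of_mem_erase hz) hr)
  have hloop : ∀ z, z ≠ x → z ∈ N z → z ∈ addArcs N1 u' v' z := fun z hz h =>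
    subset_addArcs _ _ _ _ (mem_image_ph_self hz h)
  have hcard0 : ∀ z, (N1 z).card ≤ (addArcs N1 u' v' z).card := fun z =>
    card_le_card (subset_addArcs _ _ _ _)
  -- facts on old deficient vertices
  have hdef : ∀ z ∈ S, z ∉ N z → (N z).card < 3 → (N z).card = 2 ∧ f z ∈ N z ∧ f z ∈ N (f z) := by
    intro z hz hzz hc
    rcases I.deg z hz with h | h | h
    · exact absurd h hzz
    · omega
    · exact h
  have hfx : ∀ z ∈ S, z ∉ N z → (N z).card < 3 → f z ≠ x := by
    intro z hz hzz hc h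
    have := (hdef z hz hzz hc).2.2
    rw [h] at this
    exact hxx this
  have hM3 : ∀ z ∈ S, z ≠ x → z ∉ N z → x ∈ N z → y ∈ N z → 3 ≤ (N z).card := by
    intro z hz hzx hzz hxz hyz
    by_contra hc
    push Not at hc
    obtain ⟨hc2, hf1, hf2⟩ := hdef z hz hzz hc
    have h3 := hfx z hz hzz hc
    have h4 := (H2 z hz hzz hxz hyz).2 z hz hzx hzz hc
    have h5 : ({x, y, f z} : Finset V) ⊆ N z := by
      intro w hw
      simp only [mem_insert, mem_singleton] at hw
      rcases hw with rfl | rfl | rfl <;> assumption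
    have h6 : ({x, y, f z} : Finset V).card = 3 := by
      rw [card_insert_of_notMem, card_insert_of_notMem, card_singleton]
      · simp only [mem_singleton]; exact fun h => h4 h.symm
      · simp only [mem_insert, mem_singleton, not_or]; exact ⟨hyx.symm, fun h => h3 h.symm⟩
    have := card_le_card h5
    omega
  refine IH (S.erase x) (addArcs N1 u' v') (fun z => if x ∈ N z ∧ y ∈ N z then y else f z) u' v'
    ⟨hphS u I.hu, hphS v I.hv, hne', ?_, ?_, ?_, ?_, ?_⟩ ?_
  · simp [addArcs]
  · simp only [addArcs, if_neg hne'.symm, if_true]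
    exact mem_insert_self _ _
  · intro z hz
    have hz1 := hsub1 z hz
    intro w hw
    unfold addArcs at hw
    split_ifs at hw with h3 h4
    · rcases mem_insert.1 hw with rfl | hw
      · exact hphS v I.hv
      · exact hz1 hw
    · rcases mem_insert.1 hw with rfl | hw
      · exact hphS u I.hu
      · exact hz1 hw
    · exact hz1 hw
  · intro z hz
    obtain ⟨hzx, hzS⟩ := mem_erase.1 hz
    by_cases hzz : z ∈ N z
    · exact Or.inl (hloop z hzx hzz)
    by_cases hM : x ∈ N z ∧ y ∈ N z
    · have h3 := hM3 z hzS hzx hzz hM.1 hM.2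
      have h4 : (N z).card ≤ (N1 z).card + 1 := card_le_image_ph _
      have h5 := hcard0 z
      rcases (by omega : 3 ≤ (addArcs N1 u' v' z).card ∨ (addArcs N1 u' v' z).card = 2) with h6 | h6
      · exact Or.inr (Or.inl h6)
      · refine Or.inr (Or.inr ⟨h6, ?_, ?_⟩)
        · simp only [hM, and_self, if_true]
          exact subset_addArcs _ _ _ _ (mem_image_ph_self hyx hM.2)
        · simp only [hM, and_self, if_true]
          rcases (H2 z hzS hzz hM.1 hM.2).1 with h7 | h7
          · exact subset_addArcs _ _ _ _ (mem_image.2 ⟨x, h7, ph_self x y⟩)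
          · exact hloop y hyx h7
    · have h4 : (N1 z).card = (N z).card := card_image_ph hM
      have h5 := hcard0 z
      rcases I.deg z hzS with h | h | ⟨hc, hf1, hf2⟩
      · exact absurd h hzz
      · right; left; omega
      · have hfz : f z ≠ x := hfx z hzS hzz (by omega)
        rcases (by omega : 3 ≤ (addArcs N1 u' v' z).card ∨ (addArcs N1 u' v' z).card = 2) with
          h6 | h6
        · exact Or.inr (Or.inl h6)
        · refine Or.inr (Or.inr ⟨h6, ?_, ?_⟩)
          · simp only [hM, if_false]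
            exact subset_addArcs _ _ _ _ (mem_image_ph_self hfz hf1)
          · simp only [hM, if_false]
            exact hloop (f z) hfz hf2
  · intro z hz z' hz' hzz hzz' hc hc' hff
    obtain ⟨hzx, hzS⟩ := mem_erase.1 hz
    obtain ⟨hzx', hzS'⟩ := mem_erase.1 hz'
    have hzz0 : z ∉ N z := fun h => hzz (hloop z hzx h)
    have hzz0' : z' ∉ N z' := fun h => hzz' (hloop z' hzx' h)
    have h5 := hcard0 z
    have h5' := hcard0 z'
    by_cases hM : x ∈ N z ∧ y ∈ N z <;> by_cases hM' : x ∈ N z' ∧ y ∈ N z'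
    · exact H1 z hzS z' hzS' hzz0 hzz0' hM.1 hM.2 hM'.1 hM'.2
    · exfalso
      simp only [hM, hM', and_self, if_true, if_false] at hff
      have h6 : (N1 z').card = (N z').card := card_image_ph hM'
      exact (H2 z hzS hzz0 hM.1 hM.2).2 z' hzS' hzx' hzz0' (by omega) hff.symm
    · exfalso
      simp only [hM, hM', and_self, if_true, if_false] at hff
      have h6 : (N1 z).card = (N z).card := card_image_ph hM
      exact (H2 z' hzS' hzz0' hM'.1 hM'.2).2 z hzS hzx hzz0 (by omega) hff
    · simp only [hM, hM', if_false] at hff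
      have h6 : (N1 z).card = (N z).card := card_image_ph hM
      have h6' : (N1 z').card = (N z').card := card_image_ph hM'
      exact I.inj z hzS z' hzS' hzz0 hzz0' (by omega) (by omega) hff
  · -- the measure
    unfold mu
    have hc1 : (S.erase x).card + 1 = S.card := card_erase_add_one hx
    have hxc : 2 ≤ (N x).card := by
      rcases I.deg x hx with h | h | h
      · exact absurd h hxx
      · omega
      · omega
    have hs1 : ∑ z ∈ S.erase x, (addArcs N1 u' v' z).card ≤
        ∑ z ∈ S.erase x, ((N z).card + (if z = u' then 1 else 0) + (if z = v' then 1 else 0)) := by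
      apply sum_le_sum
      intro z _
      have := card_addArcs N1 u' v' z
      have h3 : (N1 z).card ≤ (N z).card := card_image_le
      omega
    have hs2 : ∑ z ∈ S.erase x, (if z = u' then 1 else 0) ≤ 1 := by
      rw [sum_ite_eq']; split_ifs <;> omega
    have hs3 : ∑ z ∈ S.erase x, (if z = v' then 1 else 0) ≤ 1 := by
      rw [sum_ite_eq']; split_ifs <;> omega
    rw [sum_add_distrib, sum_add_distrib] at hs1
    have hs4 : ∑ z ∈ S.erase x, (N z).card + (N x).card = ∑ z ∈ S, (N z).card :=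
      sum_erase_add _ _ hx
    omega

end Q5.Friendly
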