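import Pool.Agent.Q5.Friendly.Pair

set_option autoImplicit false

namespace Q5.Friendly

open Finset

variable {V : Type*} [DecidableEq V]
variable {S : Finset V} {N : V → Finset V} {f : V → V} {u v : V}

/-- the in-neighbours -/
def Lin (S : Finset V) (N : V → Finset V) (y : V) : Finset V :=
  S.filter (fun z => z ∉ N z ∧ y ∈ N z)

theorem mem_Lin {y z : V} : z ∈ Lin S N y ↔ z ∈ S ∧ z ∉ N z ∧ y ∈ N z := by simp [Lin]

/-- the deficient vertices -/
def Dset (S : Finset V) (N : V → Finset V) : Finset V :=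
  S.filter (fun z => z ∉ N z ∧ (N z).card < 3)

theorem mem_Dset {z : V} : z ∈ Dset S N ↔ z ∈ S ∧ z ∉ N z ∧ (N z).card < 3 := by simp [Dset]

def aa (N : V → Finset V) (x y : V) : ℤ := if y ∈ N x then 1 else 0

open Classical in
noncomputable def cc (S : Finset V) (N : V → Finset V) (f : V → V) (x y : V) : ℤ :=
  if y ∈ N x ∧ y ∈ N y ∧ (∀ z ∈ S, z ≠ x → z ∉ N z → (N z).card < 3 → f z ≠ y) then 1 else 0

def ee (u v x y : V) : ℤ := if (x = u ∧ y = v) ∨ (x = v ∧ y = u) then 2 else 0

noncomputable def om (S : Finset V) (N : V → Finset V) (f : V → V) (u v x y : V) : ℤ :=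
  (Com S N x y).card - aa N x y - aa N y x - cc S N f x y - cc S N f y x + ee u v x y

noncomputable def RR (S : Finset V) (N : V → Finset V) (f : V → V) (u v y : V) : ℤ :=
  ∑ x ∈ S.erase y, om S N f u v x y

noncomputable def ctot (S : Finset V) (N : V → Finset V) (f : V → V) : ℤ :=
  ∑ y ∈ S, ∑ x ∈ S.erase y, cc S N f x y

theorem Com_comm (x y : V) : Com S N x y = Com S N y x := by
  ext z; rw [mem_Com, mem_Com]; tauto

theorem om_comm (x y : V) : om S N f u v x y = om S N f u v y x := by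
  unfold om
  rw [Com_comm x y]
  have : ee u v x y = ee u v y x := by
    unfold ee
    congr 1
    apply propext; tauto
  rw [this]; ring

theorem aa_nonneg (x y : V) : 0 ≤ aa N x y := by unfold aa; split_ifs <;> norm_num
theorem aa_le (x y : V) : aa N x y ≤ 1 := by unfold aa; split_ifs <;> norm_num
theorem cc_nonneg (x y : V) : 0 ≤ cc S N f x y := by unfold cc; split_ifs <;> norm_num
theorem cc_le (x y : V) : cc S N f x y ≤ 1 := by unfold cc; split_ifs <;> norm_num

theorem cc_zero {x y : V} (h : y ∉ N y) : cc S N f x y = 0 := by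
  unfold cc; rw [if_neg]; tauto


theorem MinCE.not_loop_of (C : MinCE S N f u v) {x y : V} (hx : x ∈ S) (hxy : y ∈ N x)
    (hne : x ≠ y) : x ∉ N x := by
  intro h
  rw [C.loop hx h, mem_singleton] at hxy
  exact hne hxy.symm

theorem MinCE.om_nonneg (C : MinCE S N f u v) {x y : V} (hx : x ∈ S) (hy : y ∈ S) (hne : x ≠ y) :
    0 ≤ om S N f u v x y := by
  have hm : (0 : ℤ) ≤ (Com S N x y).card := by positivity
  by_cases h1 : x = u ∧ y = v
  · obtain ⟨rfl, rfl⟩ := h1
    unfold om
    rw [cc_zero C.nv, cc_zero C.nu]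
    have h3 := aa_le (N := N) x y
    have h4 := aa_le (N := N) y x
    have h5 : ee x y x y = 2 := by simp [ee]
    rw [h5]; linarith
  by_cases h2 : x = v ∧ y = u
  · obtain ⟨rfl, rfl⟩ := h2
    unfold om
    rw [cc_zero C.nv, cc_zero C.nu]
    have h3 := aa_le (N := N) x y
    have h4 := aa_le (N := N) y x
    have h5 : ee y x x y = 2 := by simp [ee]
    rw [h5]; linarith
  have hee : ee u v x y = 0 := by unfold ee; rw [if_neg]; tauto
  -- one direction
  have one : ∀ p q : V, p ∈ S → q ∈ S → p ≠ q → ¬(p = u ∧ q = v) → ¬(p = v ∧ q = u) →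
      q ∈ N p → p ∉ N q → 1 + cc S N f p q ≤ (Com S N p q).card := by
    intro p q hp hq hpq h1 h2 hqp hpq'
    have hpp := C.not_loop_of hp hqp hpq
    unfold cc
    split_ifs with h3
    · have := C.com_two hp hqp hpp h1 h2 (Or.inr h3.2.1) h3.2.2
      have h4 : (2 : ℤ) ≤ (Com S N p q).card := by exact_mod_cast this
      linarith
    · have := C.com_nonempty hp hqp hpp h1 h2
      have h4 : (1 : ℤ) ≤ (Com S N p q).card := by exact_mod_cast this
      linarith
  by_cases hxy : y ∈ N x <;> by_cases hyx : x ∈ N y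
  · have h3 := C.com_cycle hx hxy hyx hne h1 h2
    have h4 : (2 : ℤ) ≤ (Com S N x y).card := by exact_mod_cast h3
    have h5 := C.not_loop_of hx hxy hne
    have h6 := C.not_loop_of hy hyx hne.symm
    unfold om
    rw [cc_zero h6, cc_zero h5, hee]
    have h7 := aa_le (N := N) x y
    have h8 := aa_le (N := N) y x
    linarith
  · have h3 := one x y hx hy hne h1 h2 hxy hyx
    have h4 : aa N y x = 0 := by unfold aa; rw [if_neg hyx]
    have h5 : cc S N f y x = 0 := by unfold cc; rw [if_neg]; tauto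
    have h6 := aa_le (N := N) x y
    unfold om
    rw [h4, h5, hee]; linarith
  · have h3 := one y x hy hx hne.symm (by tauto) (by tauto) hyx hxy
    rw [Com_comm] at h3
    have h4 : aa N x y = 0 := by unfold aa; rw [if_neg hxy]
    have h5 : cc S N f x y = 0 := by unfold cc; rw [if_neg]; tauto
    have h6 := aa_le (N := N) y x
    unfold om
    rw [h4, h5, hee]; linarith
  · have h4 : aa N x y = 0 := by unfold aa; rw [if_neg hxy]
    have h5 : cc S N f x y = 0 := by unfold cc; rw [if_neg]; tauto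
    have h6 : aa N y x = 0 := by unfold aa; rw [if_neg hyx]
    have h7 : cc S N f y x = 0 := by unfold cc; rw [if_neg]; tauto
    unfold om
    rw [h4, h5, h6, h7, hee]; linarith

theorem MinCE.RR_nonneg (C : MinCE S N f u v) {y : V} (hy : y ∈ S) : 0 ≤ RR S N f u v y :=
  sum_nonneg fun x hx => C.om_nonneg (mem_of_mem_erase hx) hy (ne_of_mem_erase hx)

theorem MinCE.sum_com (C : MinCE S N f u v) {y : V} (_hy : y ∈ S) :
    ∑ x ∈ S.erase y, ((Com S N x y).card : ℤ) = ∑ z ∈ Lin S N y, (((N z).card : ℤ) - 1) := by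
  have h1 : ∀ x, ((Com S N x y).card : ℤ) = ∑ z ∈ Lin S N y, if x ∈ N z then (1 : ℤ) else 0 := by
    intro x
    have : Com S N x y = (Lin S N y).filter (fun z => x ∈ N z) := by
      ext z; rw [mem_Com, mem_filter, mem_Lin]; tauto
    rw [this, card_filter]; push_cast; rfl
  simp_rw [h1]
  rw [sum_comm]
  apply sum_congr rfl
  intro z hz
  obtain ⟨hzS, hzz, hyz⟩ := mem_Lin.1 hz
  have h2 : (S.erase y).filter (fun x => x ∈ N z) = (N z).erase y := by
    ext x
    simp only [mem_filter, mem_erase]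
    constructor
    · rintro ⟨⟨h3, _⟩, h4⟩; exact ⟨h3, h4⟩
    · rintro ⟨h3, h4⟩; exact ⟨⟨h3, C.I.sub z hzS h4⟩, h4⟩
  have h3 : ∑ x ∈ S.erase y, (if x ∈ N z then (1 : ℤ) else 0) =
      (((S.erase y).filter (fun x => x ∈ N z)).card : ℤ) := by
    rw [card_filter]; push_cast; rfl
  rw [h3, h2]
  have := card_erase_add_one hyz
  have h4 : (((N z).erase y).card : ℤ) + 1 = (N z).card := by exact_mod_cast this
  linarith

theorem MinCE.sum_aa_in (C : MinCE S N f u v) {y : V} (_hy : y ∈ S) :
    ∑ x ∈ S.erase y, aa N x y = (Lin S N y).card := by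
  have h3 : ∑ x ∈ S.erase y, aa N x y =
      (((S.erase y).filter (fun x => y ∈ N x)).card : ℤ) := by
    rw [card_filter]; push_cast; rfl
  rw [h3]
  congr 2
  ext x
  rw [mem_filter, mem_erase, mem_Lin]
  constructor
  · rintro ⟨⟨h1, h2⟩, h4⟩; exact ⟨h2, C.not_loop_of h2 h4 h1, h4⟩
  · rintro ⟨h1, h2, h4⟩; exact ⟨⟨fun h => h2 (h ▸ h4), h1⟩, h4⟩

theorem MinCE.sum_aa_out (C : MinCE S N f u v) {y : V} (hy : y ∈ S) :
    ∑ x ∈ S.erase y, aa N y x = ((N y).erase y).card := by
  have h3 : ∑ x ∈ S.erase y, aa N y x =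
      (((S.erase y).filter (fun x => x ∈ N y)).card : ℤ) := by
    rw [card_filter]; push_cast; rfl
  rw [h3]
  congr 2
  ext x
  rw [mem_filter, mem_erase, mem_erase]
  constructor
  · rintro ⟨⟨h1, h2⟩, h4⟩; exact ⟨h1, h4⟩
  · rintro ⟨h1, h2⟩; exact ⟨⟨h1, C.I.sub y hy h2⟩, h2⟩

theorem MinCE.sum_ee (C : MinCE S N f u v) (y : V) :
    ∑ x ∈ S.erase y, ee u v x y = if y = u ∨ y = v then 2 else 0 := by
  by_cases hyu : y = u
  · subst hyu
    have : ∀ x ∈ S.erase y, ee y v x y = if x = v then 2 else 0 := by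
      intro x hx
      have hxy := ne_of_mem_erase hx
      unfold ee
      by_cases hxv : x = v
      · simp [hxv]
      · simp [hxv, hxy]
    rw [sum_congr rfl this, sum_ite_eq', if_pos (mem_erase.2 ⟨C.I.ne.symm, C.I.hv⟩)]
    simp
  · by_cases hyv : y = v
    · subst hyv
      have : ∀ x ∈ S.erase y, ee u y x y = if x = u then 2 else 0 := by
        intro x hx
        have hxy := ne_of_mem_erase hx
        unfold ee
        by_cases hxu : x = u
        · simp [hxu]
        · simp [hxu, hxy]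
      rw [sum_congr rfl this, sum_ite_eq', if_pos (mem_erase.2 ⟨C.I.ne, C.I.hu⟩)]
      simp
    · rw [if_neg (by tauto)]
      apply sum_eq_zero
      intro x _
      unfold ee; rw [if_neg]; tauto

/-- the row identity -/
theorem MinCE.RR_eq (C : MinCE S N f u v) {y : V} (hy : y ∈ S) :
    RR S N f u v y = ∑ z ∈ Lin S N y, (((N z).card : ℤ) - 2) - ((N y).erase y).card
      - ∑ x ∈ S.erase y, (cc S N f x y + cc S N f y x) + (if y = u ∨ y = v then 2 else 0) := by
  unfold RR om
  rw [sum_add_distrib, sum_sub_distrib, sum_sub_distrib, sum_sub_distrib, sum_sub_distrib,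
    C.sum_com hy, C.sum_aa_in hy, C.sum_aa_out hy, C.sum_ee y, sum_add_distrib]
  have h1 : ∑ z ∈ Lin S N y, (((N z).card : ℤ) - 2) =
      ∑ z ∈ Lin S N y, (((N z).card : ℤ) - 1) - (Lin S N y).card := by
    rw [sum_sub_distrib, sum_sub_distrib]
    simp
    ring
  rw [h1]; ring

end Q5.Friendly
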