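import Pool.Agent.Q5.Friendly.Count

set_option autoImplicit false

namespace Q5.Friendly

open Finset

variable {V : Type*} [DecidableEq V]
variable {S : Finset V} {N : V → Finset V} {f : V → V} {u v : V}

theorem MinCE.sum_Lin (C : MinCE S N f u v) (F : V → ℤ) :
    ∑ y ∈ S, ∑ z ∈ Lin S N y, F z = ∑ z ∈ S.filter (fun z => z ∉ N z), ((N z).card : ℤ) * F z := by
  have h1 : ∀ y, ∑ z ∈ Lin S N y, F z =
      ∑ z ∈ S.filter (fun z => z ∉ N z), if y ∈ N z then F z else 0 := by
    intro y
    rw [← sum_filter, filter_filter]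
    rfl
  simp_rw [h1]
  rw [sum_comm]
  apply sum_congr rfl
  intro z hz
  obtain ⟨hzS, hzz⟩ := mem_filter.1 hz
  rw [← sum_filter, sum_const, nsmul_eq_mul]
  congr 2
  congr 1
  ext y
  rw [mem_filter]
  exact ⟨fun h => h.2, fun h => ⟨C.I.sub z hzS h, h⟩⟩

theorem MinCE.sum_RR (C : MinCE S N f u v) :
    ∑ y ∈ S, RR S N f u v y = 4 - 2 * (Dset S N).card - 2 * ctot S N f := by
  have h0 : ∑ y ∈ S, RR S N f u v y = ∑ y ∈ S, (∑ z ∈ Lin S N y, (((N z).card : ℤ) - 2) -
      ((N y).erase y).card - ∑ x ∈ S.erase y, (cc S N f x y + cc S N f y x) +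
      (if y = u ∨ y = v then 2 else 0)) := sum_congr rfl fun y hy => C.RR_eq hy
  rw [h0, sum_add_distrib, sum_sub_distrib, sum_sub_distrib, C.sum_Lin]
  have h1 : ∑ y ∈ S, (((N y).erase y).card : ℤ) =
      ∑ z ∈ S.filter (fun z => z ∉ N z), ((N z).card : ℤ) := by
    rw [sum_filter]
    apply sum_congr rfl
    intro y hy
    by_cases h : y ∈ N y
    · rw [if_neg (not_not.2 h), C.loop hy h]; simp
    · rw [if_pos h, erase_eq_of_notMem h]
  have h2 : ∑ y ∈ S, (if y = u ∨ y = v then (2 : ℤ) else 0) = 4 := by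
    have : ∀ y ∈ S, (if y = u ∨ y = v then (2 : ℤ) else 0) =
        (if y = u then 2 else 0) + (if y = v then 2 else 0) := by
      intro y _
      by_cases h3 : y = u
      · subst h3; simp [C.I.ne]
      · simp [h3]
    rw [sum_congr rfl this, sum_add_distrib, sum_ite_eq', sum_ite_eq', if_pos C.I.hu,
      if_pos C.I.hv]
    norm_num
  have h3 : ∑ y ∈ S, ∑ x ∈ S.erase y, (cc S N f x y + cc S N f y x) = 2 * ctot S N f := by
    have h4 : ∑ y ∈ S, ∑ x ∈ S.erase y, cc S N f y x = ctot S N f := by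
      unfold ctot
      apply sum_comm'
      intro x y
      simp only [mem_erase]
      constructor
      · rintro ⟨h1, h2, h3⟩; exact ⟨⟨h2.symm, h1⟩, h3⟩
      · rintro ⟨⟨h1, h2⟩, h3⟩; exact ⟨h2, h1.symm, h3⟩
    simp_rw [sum_add_distrib]
    rw [h4]
    unfold ctot; ring
  have h5 : ∑ z ∈ S.filter (fun z => z ∉ N z), ((N z).card : ℤ) * (((N z).card : ℤ) - 2) -
      ∑ z ∈ S.filter (fun z => z ∉ N z), ((N z).card : ℤ) = - 2 * (Dset S N).card := by
    rw [← sum_sub_distrib]
    have : ∀ z ∈ S.filter (fun z => z ∉ N z), ((N z).card : ℤ) * (((N z).card : ℤ) - 2) -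
        (N z).card = if (N z).card < 3 then -2 else 0 := by
      intro z hz
      obtain ⟨hzS, hzz⟩ := mem_filter.1 hz
      rcases C.deg' hzS hzz with h | ⟨h, _⟩
      · rw [h]; norm_num
      · rw [h]; norm_num
    rw [sum_congr rfl this, ← sum_filter, filter_filter, sum_const]
    unfold Dset
    simp; ring
  rw [h1, h2, h3]
  linarith

theorem ctot_ge (P : Finset (V × V)) (hP : ∀ p ∈ P, p.1 ∈ S ∧ p.2 ∈ S ∧ p.1 ≠ p.2 ∧
    cc S N f p.1 p.2 = 1) : (P.card : ℤ) ≤ ctot S N f := by
  have h1 : ctot S N f = ∑ p ∈ S ×ˢ S, if p.1 ≠ p.2 then cc S N f p.1 p.2 else 0 := by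
    unfold ctot
    rw [sum_product_right]
    apply sum_congr rfl
    intro y _
    rw [← sum_filter]
    apply sum_congr _ (fun _ _ => rfl)
    ext x; simp [and_comm]
  rw [h1]
  have h2 : (P.card : ℤ) = ∑ p ∈ P, if p.1 ≠ p.2 then cc S N f p.1 p.2 else 0 := by
    rw [card_eq_sum_ones]; push_cast
    apply sum_congr rfl
    intro p hp
    obtain ⟨_, _, h3, h4⟩ := hP p hp
    rw [if_pos h3, h4]
  rw [h2]
  apply sum_le_sum_of_subset_of_nonneg
  · intro p hp
    obtain ⟨h3, h4, _⟩ := hP p hp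
    exact mem_product.2 ⟨h3, h4⟩
  · intro p _ _
    split_ifs
    · exact cc_nonneg _ _
    · exact le_rfl

theorem MinCE.bound (C : MinCE S N f u v) :
    ((Dset S N).card : ℤ) + ctot S N f ≤ 2 := by
  have h1 := C.sum_RR
  have h2 : 0 ≤ ∑ y ∈ S, RR S N f u v y := sum_nonneg fun y hy => C.RR_nonneg hy
  linarith

/-- every loop vertex belongs to a deficient vertex -/
theorem MinCE.not_free (C : MinCE S N f u v) {t : V} (ht : t ∈ S) (htt : t ∈ N t) :
    ∃ z ∈ S, z ∉ N z ∧ (N z).card < 3 ∧ f z = t := by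
  by_contra hcon
  push Not at hcon
  have htu : t ≠ u := fun h => C.nu (h ▸ htt)
  have htv : t ≠ v := fun h => C.nv (h ▸ htt)
  obtain ⟨x, hx, hxt, hxN⟩ := C.exists_in ht htu htv
  have hxx := C.not_loop_of hx hxN hxt
  have h2 := C.com_two hx hxN hxx (fun h => htv h.2) (fun h => htu h.2) (Or.inr htt)
    (fun z hz _ hzz hc => hcon z hz hzz hc)
  obtain ⟨z1, hz1, z2, hz2, hne⟩ := one_lt_card.1 (by omega : 1 < (Com S N x t).card)
  rw [mem_Com] at hz1 hz2
  have hcc : ∀ z, t ∈ N z → cc S N f z t = 1 := by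
    intro z hz
    unfold cc
    rw [if_pos]
    exact ⟨hz, htt, fun z' hz' _ hzz' hc => hcon z' hz' hzz' hc⟩
  have hx1 : x ≠ z1 := by rintro rfl; exact hxx hz1.2.2.1
  have hx2 : x ≠ z2 := by rintro rfl; exact hxx hz2.2.2.1
  have h3 := ctot_ge (S := S) (N := N) (f := f) {(x, t), (z1, t), (z2, t)} (by
    intro p hp
    simp only [mem_insert, mem_singleton] at hp
    rcases hp with rfl | rfl | rfl
    · exact ⟨hx, ht, hxt, hcc _ hxN⟩
    · refine ⟨hz1.1, ht, fun h => ?_, hcc _ hz1.2.2.2⟩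
      have h' : z1 = t := h
      have h3 := hz1.2.2.2
      rw [← h'] at h3
      exact hz1.2.1 h3
    · refine ⟨hz2.1, ht, fun h => ?_, hcc _ hz2.2.2.2⟩
      have h' : z2 = t := h
      have h3 := hz2.2.2.2
      rw [← h'] at h3
      exact hz2.2.1 h3)
  have h4 : ({(x, t), (z1, t), (z2, t)} : Finset (V × V)).card = 3 := by
    rw [card_insert_of_notMem, card_insert_of_notMem, card_singleton]
    · simp [hne]
    · simp [hx1, hx2]
  rw [h4] at h3
  have h5 := C.bound
  have h6 : (0 : ℤ) ≤ (Dset S N).card := by positivity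
  push_cast at h3
  linarith

theorem MinCE.cc_f (C : MinCE S N f u v) {z : V} (hz : z ∈ Dset S N) :
    z ∈ S ∧ f z ∈ S ∧ z ≠ f z ∧ cc S N f z (f z) = 1 := by
  obtain ⟨hzS, hzz, hc⟩ := mem_Dset.1 hz
  obtain ⟨h1, h2⟩ : f z ∈ N z ∧ f z ∈ N (f z) := by
    rcases C.deg' hzS hzz with h | h
    · omega
    · exact h.2
  refine ⟨hzS, C.I.sub z hzS h1, fun h => hzz (by rw [← h] at h2; exact h2), ?_⟩
  unfold cc
  rw [if_pos]
  refine ⟨h1, h2, fun z' hz' hne hzz' hc' hf => hne ?_⟩
  exact C.I.inj z' hz' z hzS hzz' hzz hc' hc hf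

theorem MinCE.ctot_ge_D (C : MinCE S N f u v) : ((Dset S N).card : ℤ) ≤ ctot S N f := by
  have h1 := ctot_ge (S := S) (N := N) (f := f) ((Dset S N).image (fun z => (z, f z))) (by
    intro p hp
    obtain ⟨z, hz, rfl⟩ := mem_image.1 hp
    exact C.cc_f hz)
  rwa [card_image_of_injective _ (fun a b h => (Prod.mk.inj h).1)] at h1

/-- if the out-neighbours of `u` are out-neighbours of `v` then we are done -/
theorem MinCE.lemA (C : MinCE S N f u v) (h : ∀ a ∈ N u, a ≠ v → a ∈ N v) : False := by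
  apply C.ab_false
  have h1 : (N u).erase v ⊆ (N v).erase u := by
    intro a ha
    obtain ⟨h2, h3⟩ := mem_erase.1 ha
    exact mem_erase.2 ⟨fun h4 => C.nu (h4 ▸ h3), h a h3 h2⟩
  apply eq_of_subset_of_card_le h1
  have h2 := card_erase_add_one C.I.vu
  have h3 := card_erase_add_one C.I.uv
  have h4 := C.card_u
  have h5 := C.card_v
  omega

theorem MinCE.lemA' (C : MinCE S N f u v) (h : ∀ z ∈ Lin S N u, z = v) : False := by
  apply C.lemA
  intro a ha hav
  have h1 := C.com_nonempty C.I.hu ha C.nu (fun h => hav h.2) (fun h => C.I.ne h.1)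
  obtain ⟨g, hg⟩ := card_pos.1 (by omega : 0 < (Com S N u a).card)
  rw [mem_Com] at hg
  have := h g (mem_Lin.2 ⟨hg.1, hg.2.1, hg.2.2.1⟩)
  subst this
  exact hg.2.2.2

theorem MinCE.inU (C : MinCE S N f u v) {z0 : V} (hD : Dset S N = {z0}) :
    ∀ z ∈ Lin S N u, z = v ∨ z = z0 := by
  have hz0 : z0 ∈ Dset S N := by rw [hD]; exact mem_singleton_self _
  have h1 := C.sum_RR
  have h2 := C.ctot_ge_D
  rw [hD, card_singleton] at h1 h2
  push_cast at h1 h2
  have h3 : RR S N f u v u ≤ ∑ y ∈ S, RR S N f u v y :=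
    single_le_sum (f := fun y => RR S N f u v y) (fun y hy => C.RR_nonneg hy) C.I.hu
  have h4 := C.RR_nonneg C.I.hu
  have h5 := C.RR_eq C.I.hu
  have hz0u : z0 ≠ u := by
    rintro rfl
    have := (mem_Dset.1 hz0).2.2
    rw [C.card_u] at this
    omega
  -- the correction terms at `u` vanish
  have h6 : ∑ x ∈ S.erase u, (cc S N f x u + cc S N f u x) = 0 := by
    apply sum_eq_zero
    intro x hx
    rw [cc_zero C.nu, zero_add]
    by_contra hne
    have h7 : cc S N f u x = 1 := by
      have h8 := cc_nonneg (S := S) (N := N) (f := f) u x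
      have h9 := cc_le (S := S) (N := N) (f := f) u x
      omega
    obtain ⟨h10, h11, h12, h13⟩ := C.cc_f hz0
    have h8 := ctot_ge (S := S) (N := N) (f := f) {(u, x), (z0, f z0)} (by
      intro p hp
      simp only [mem_insert, mem_singleton] at hp
      rcases hp with rfl | rfl
      · exact ⟨C.I.hu, mem_of_mem_erase hx, (ne_of_mem_erase hx).symm, h7⟩
      · exact ⟨h10, h11, h12, h13⟩)
    rw [card_pair (fun h => hz0u (Prod.mk.inj h).1.symm)] at h8
    push_cast at h8
    linarith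
  rw [h6, erase_eq_of_notMem C.nu, C.card_u, if_pos (Or.inl rfl)] at h5
  push_cast at h5
  have h7 : ∑ z ∈ Lin S N u, (((N z).card : ℤ) - 2) ≤ 1 := by linarith
  have hvL : v ∈ Lin S N u := mem_Lin.2 ⟨C.I.hv, C.nv, C.I.uv⟩
  have hnn : ∀ z ∈ Lin S N u, 0 ≤ (((N z).card : ℤ) - 2) := by
    intro z hz
    obtain ⟨h8, h9, _⟩ := mem_Lin.1 hz
    rcases C.deg' h8 h9 with h | h
    · rw [h]; norm_num
    · rw [h.1]; norm_num
  intro z hz
  by_contra hcon
  push Not at hcon
  obtain ⟨h8, h9, _⟩ := mem_Lin.1 hz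
  have h10 : (N z).card = 3 := by
    rcases C.deg' h8 h9 with h | h
    · exact h
    · exfalso
      apply hcon.2
      have : z ∈ Dset S N := mem_Dset.2 ⟨h8, h9, by omega⟩
      rwa [hD, mem_singleton] at this
  have h11 : ∑ w ∈ ({v, z} : Finset V), (((N w).card : ℤ) - 2) ≤
      ∑ z ∈ Lin S N u, (((N z).card : ℤ) - 2) := by
    apply sum_le_sum_of_subset_of_nonneg
    · intro w hw
      simp only [mem_insert, mem_singleton] at hw
      rcases hw with rfl | rfl <;> assumption
    · intro w hw _; exact hnn w hw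
  rw [sum_pair (fun h => hcon.1 h.symm), C.card_v, h10] at h11
  push_cast at h11
  linarith

/-- there is no deficient vertex -/
theorem MinCE.D_empty (C : MinCE S N f u v) : Dset S N = ∅ := by
  have h1 := C.bound
  have h2 := C.ctot_ge_D
  by_contra hne
  have h3 : 0 < (Dset S N).card := card_pos.2 (nonempty_iff_ne_empty.2 hne)
  have h4 : (Dset S N).card = 1 := by
    have : ((Dset S N).card : ℤ) ≤ 1 := by linarith
    omega
  obtain ⟨z0, hD⟩ := card_eq_one.1 h4
  have hz0 : z0 ∈ Dset S N := by rw [hD]; exact mem_singleton_self _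
  obtain ⟨hzS, hzz, hc⟩ := mem_Dset.1 hz0
  obtain ⟨hc2, h5, h6⟩ : (N z0).card = 2 ∧ f z0 ∈ N z0 ∧ f z0 ∈ N (f z0) := by
    rcases C.deg' hzS hzz with h | h
    · omega
    · exact h
  by_cases hu : u ∈ N z0
  · have hv : v ∉ N z0 := by
      intro hv
      have h7 : ({u, v, f z0} : Finset V) ⊆ N z0 := by
        intro w hw
        simp only [mem_insert, mem_singleton] at hw
        rcases hw with rfl | rfl | rfl <;> assumption
      have h8 : ({u, v, f z0} : Finset V).card = 3 := by
        rw [card_insert_of_notMem, card_insert_of_notMem, card_singleton]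
        · simp only [mem_singleton]; exact fun h => C.nv (h ▸ h6)
        · simp only [mem_insert, mem_singleton, not_or]
          exact ⟨C.I.ne, fun h => C.nu (h ▸ h6)⟩
      have := card_le_card h7
      omega
    apply C.symm.lemA'
    intro z hz
    rcases C.symm.inU hD z hz with h | h
    · exact h
    · subst h; exact absurd (mem_Lin.1 hz).2.2 hv
  · apply C.lemA'
    intro z hz
    rcases C.inU hD z hz with h | h
    · exact h
    · subst h; exact absurd (mem_Lin.1 hz).2.2 hu

theorem MinCE.no_loop (C : MinCE S N f u v) {x : V} (hx : x ∈ S) : x ∉ N x := by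
  intro h
  obtain ⟨z, h1, h2, h3, _⟩ := C.not_free hx h
  have : z ∈ Dset S N := mem_Dset.2 ⟨h1, h2, h3⟩
  rw [C.D_empty] at this
  exact absurd this (notMem_empty _)

theorem MinCE.three (C : MinCE S N f u v) {x : V} (hx : x ∈ S) : (N x).card = 3 := by
  rcases C.deg' hx (C.no_loop hx) with h | ⟨h, _⟩
  · exact h
  · have : x ∈ Dset S N := mem_Dset.2 ⟨hx, C.no_loop hx, by omega⟩
    rw [C.D_empty] at this
    exact absurd this (notMem_empty _)

theorem MinCE.cc_all (C : MinCE S N f u v) {x y : V} (hy : y ∈ S) : cc S N f x y = 0 :=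
  cc_zero (C.no_loop hy)

theorem MinCE.RR_eq' (C : MinCE S N f u v) {y : V} (hy : y ∈ S) :
    RR S N f u v y = (Lin S N y).card - 3 + (if y = u ∨ y = v then 2 else 0) := by
  rw [C.RR_eq hy, erase_eq_of_notMem (C.no_loop hy), C.three hy]
  have h1 : ∑ x ∈ S.erase y, (cc S N f x y + cc S N f y x) = 0 := by
    apply sum_eq_zero
    intro x hx
    rw [C.cc_all hy, C.cc_all (mem_of_mem_erase hx)]; rfl
  have h2 : ∑ z ∈ Lin S N y, (((N z).card : ℤ) - 2) = (Lin S N y).card := by
    rw [card_eq_sum_ones]; push_cast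
    apply sum_congr rfl
    intro z hz
    rw [C.three (mem_Lin.1 hz).1]; norm_num
  rw [h1, h2]; push_cast; ring

theorem MinCE.sum_RR' (C : MinCE S N f u v) : ∑ y ∈ S, RR S N f u v y = 4 := by
  rw [C.sum_RR, C.D_empty]
  have : ctot S N f = 0 := by
    unfold ctot
    apply sum_eq_zero
    intro y hy
    apply sum_eq_zero
    intro x _
    exact C.cc_all hy
  rw [this]; simp

theorem MinCE.om_eq (C : MinCE S N f u v) {x y : V} (hx : x ∈ S) (hy : y ∈ S) :
    om S N f u v x y = (Com S N x y).card - aa N x y - aa N y x + ee u v x y := by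
  unfold om
  rw [C.cc_all hy, C.cc_all hx]; ring

theorem Com_subset_Lin (x y : V) : Com S N x y ⊆ Lin S N y := by
  intro z hz
  rw [mem_Com] at hz
  exact mem_Lin.2 ⟨hz.1, hz.2.1, hz.2.2.2⟩

theorem MinCE.card_Lin_u (C : MinCE S N f u v) :
    (((Lin S N u).erase v).card : ℤ) = RR S N f u v u := by
  rw [C.RR_eq' C.I.hu, if_pos (Or.inl rfl)]
  have hvL : v ∈ Lin S N u := mem_Lin.2 ⟨C.I.hv, C.nv, C.I.uv⟩
  have := card_erase_add_one hvL
  have h2 : (((Lin S N u).erase v).card : ℤ) + 1 = (Lin S N u).card := by exact_mod_cast this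
  linarith

theorem RR_swap (y : V) : RR S N f v u y = RR S N f u v y := by
  unfold RR
  apply sum_congr rfl
  intro x _
  unfold om
  have : ee v u x y = ee u v x y := by
    unfold ee; congr 1; apply propext; tauto
  rw [this]

theorem om_swap (x y : V) : om S N f v u x y = om S N f u v x y := by
  unfold om
  have : ee v u x y = ee u v x y := by
    unfold ee; congr 1; apply propext; tauto
  rw [this]

theorem MinCE.card_Lin_v (C : MinCE S N f u v) :
    (((Lin S N v).erase u).card : ℤ) = RR S N f u v v := by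
  rw [C.symm.card_Lin_u, RR_swap]

theorem MinCE.om_uv (C : MinCE S N f u v) : om S N f u v v u = (Com S N v u).card := by
  rw [C.om_eq C.I.hv C.I.hu]
  have h1 : aa N u v = 1 := by unfold aa; rw [if_pos C.I.vu]
  have h2 : aa N v u = 1 := by unfold aa; rw [if_pos C.I.uv]
  have h3 : ee u v v u = 2 := by simp [ee]
  rw [h1, h2, h3]; ring

/-- a second in-neighbour of `u` has an in-neighbour that is `v` or a second in-neighbour -/
theorem MinCE.in_in (C : MinCE S N f u v) {p : V} (hp : p ∈ (Lin S N u).erase v) :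
    ∃ g ∈ Lin S N u, p ∈ N g ∧ g ≠ p := by
  obtain ⟨hpv, hp⟩ := mem_erase.1 hp
  obtain ⟨hpS, hpp, hup⟩ := mem_Lin.1 hp
  have hpu : p ≠ u := fun h => C.nu (h ▸ hup)
  have h1 := C.com_nonempty hpS hup hpp (fun h => hpu h.1) (fun h => hpv h.1)
  obtain ⟨g, hg⟩ := card_pos.1 (by omega : 0 < (Com S N p u).card)
  rw [mem_Com] at hg
  exact ⟨g, mem_Lin.2 ⟨hg.1, hg.2.1, hg.2.2.2⟩, hg.2.2.1, fun h => hg.2.1 (h ▸ hg.2.2.1)⟩

theorem MinCE.common (C : MinCE S N f u v) {h : V} (hu : h ∈ (Lin S N u).erase v)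
    (hv : h ∈ (Lin S N v).erase u) : 2 ≤ ((Lin S N u).erase v).card ∧
      ∃ g ∈ (Lin S N u).erase v, g ≠ h ∧ h ∈ N g := by
  obtain ⟨g, hg, hgh, hne⟩ := C.in_in hu
  have hhv := (mem_Lin.1 (mem_of_mem_erase hv)).2.2
  have hgv : g ≠ v := by
    rintro rfl
    exact C.symm.no_back hgh (ne_of_mem_erase hv) hhv
  have hg' : g ∈ (Lin S N u).erase v := mem_erase.2 ⟨hgv, hg⟩
  refine ⟨?_, g, hg', hne, hgh⟩
  exact one_lt_card.2 ⟨g, hg', h, hu, hne⟩

theorem MinCE.disj (C : MinCE S N f u v) {h : V} (hu : h ∈ (Lin S N u).erase v)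
    (hv : h ∈ (Lin S N v).erase u) : False := by
  have h1 := (C.common hu hv).1
  have h2 := (C.symm.common hv hu).1
  have h3 := C.card_Lin_u
  have h4 := C.card_Lin_v
  have h5 := C.sum_RR'
  have hvu : v ∈ S.erase u := mem_erase.2 ⟨C.I.ne.symm, C.I.hv⟩
  have hsplit : ∑ y ∈ S, RR S N f u v y = RR S N f u v u + (RR S N f u v v +
      ∑ y ∈ (S.erase u).erase v, RR S N f u v y) := by
    rw [← add_sum_erase S _ C.I.hu, ← add_sum_erase (S.erase u) _ hvu]
  have hrest : ∀ y ∈ (S.erase u).erase v, 0 ≤ RR S N f u v y := fun y hy =>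
    C.RR_nonneg (mem_of_mem_erase (mem_of_mem_erase hy))
  have h6 : 0 ≤ ∑ y ∈ (S.erase u).erase v, RR S N f u v y := sum_nonneg hrest
  have h7 : RR S N f u v u = 2 := by omega
  have h8 : RR S N f u v v = 2 := by omega
  have h9 : ∑ y ∈ (S.erase u).erase v, RR S N f u v y = 0 := by omega
  have h10 := (sum_eq_zero_iff_of_nonneg hrest).1 h9
  -- everything at `u` is carried by `v`
  have h11 : RR S N f u v u = om S N f u v v u := by
    unfold RR
    apply sum_eq_single_of_mem v hvu
    intro x hx hxv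
    have hxS := mem_of_mem_erase hx
    have hxu := ne_of_mem_erase hx
    have h12 : om S N f u v u x ≤ RR S N f u v x := by
      unfold RR
      exact single_le_sum (f := fun w => om S N f u v w x)
        (fun w hw => C.om_nonneg (mem_of_mem_erase hw) hxS (ne_of_mem_erase hw))
        (mem_erase.2 ⟨hxu.symm, C.I.hu⟩)
    have h13 := h10 x (mem_erase.2 ⟨hxv, hx⟩)
    have h14 := C.om_nonneg C.I.hu hxS hxu.symm
    rw [om_comm]
    linarith
  rw [C.om_uv, h7] at h11
  have h12 : (Com S N v u).card = 2 := by exact_mod_cast h11.symm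
  have h13 : ((Lin S N u).erase v).card = 2 := by
    have : (((Lin S N u).erase v).card : ℤ) = 2 := by rw [h3, h7]
    exact_mod_cast this
  have h14 : Com S N v u = (Lin S N u).erase v := by
    apply eq_of_subset_of_card_le
    · intro z hz
      have hz' := mem_Com.1 hz
      refine mem_erase.2 ⟨fun hh => hz'.2.1 (hh ▸ hz'.2.2.1), Com_subset_Lin _ _ hz⟩
    · omega
  -- the two vertices
  have hboth : ∀ z ∈ (Lin S N u).erase v, z ∈ (Lin S N v).erase u := by
    intro z hz
    rw [← h14, mem_Com] at hz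
    exact mem_erase.2 ⟨fun hh => hz.2.1 (hh ▸ hz.2.2.2), mem_Lin.2 ⟨hz.1, hz.2.1, hz.2.2.1⟩⟩
  -- out-neighbourhoods of these
  have hout : ∀ z ∈ (Lin S N u).erase v, ∃ g ∈ (Lin S N u).erase v, N z = {u, v, g} := by
    intro z hz
    obtain ⟨_, g, hg, hgz, hzg⟩ := C.common hz (hboth z hz)
    obtain ⟨_, g2, hg2, hg2g, hgg2⟩ := C.common hg (hboth g hg)
    have hg2z : g2 = z := by
      by_contra hne
      have h15 : ({g, z, g2} : Finset V) ⊆ (Lin S N u).erase v := by
        intro w hw
        simp only [mem_insert, mem_singleton] at hw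
        rcases hw with rfl | rfl | rfl <;> assumption
      have h16 : ({g, z, g2} : Finset V).card = 3 := by
        rw [card_insert_of_notMem, card_insert_of_notMem, card_singleton]
        · simp only [mem_singleton]; exact fun hh => hne hh.symm
        · simp only [mem_insert, mem_singleton, not_or]; exact ⟨hgz, fun hh => hg2g hh.symm⟩
      have := card_le_card h15
      omega
    subst hg2z
    refine ⟨g, hg, ?_⟩
    have hz1 := mem_Lin.1 (mem_of_mem_erase hz)
    have hz2 := mem_Lin.1 (mem_of_mem_erase (hboth g2 hz))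
    symm
    apply eq_of_subset_of_card_le
    · intro w hw
      simp only [mem_insert, mem_singleton] at hw
      rcases hw with rfl | rfl | rfl
      · exact hz1.2.2
      · exact hz2.2.2
      · exact hgg2
    · rw [C.three hz1.1, card_insert_of_notMem, card_insert_of_notMem, card_singleton]
      · simp only [mem_singleton]; exact (ne_of_mem_erase hg).symm
      · simp only [mem_insert, mem_singleton, not_or]
        exact ⟨C.I.ne, (ne_of_mem_erase (hboth g hg)).symm⟩
  apply C.lemA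
  intro a ha hav
  have hau : a ≠ u := fun hh => C.nu (hh ▸ ha)
  have h15 := C.com_nonempty C.I.hu ha C.nu (fun h => hav h.2) (fun h => C.I.ne h.1)
  obtain ⟨g, hg⟩ := card_pos.1 (by omega : 0 < (Com S N u a).card)
  rw [mem_Com] at hg
  by_cases hgv : g = v
  · rw [← hgv]; exact hg.2.2.2
  exfalso
  obtain ⟨g', hg', hNg⟩ := hout g (mem_erase.2 ⟨hgv, mem_Lin.2 ⟨hg.1, hg.2.1, hg.2.2.1⟩⟩)
  have hag := hg.2.2.2
  rw [hNg] at hag
  simp only [mem_insert, mem_singleton] at hag
  rcases hag with hh | hh | hh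
  · exact hau hh
  · exact hav hh
  · subst hh
    exact C.no_back ha hav (mem_Lin.1 (mem_of_mem_erase hg')).2.2

theorem MinCE.contradiction (C : MinCE S N f u v) : False := by
  by_cases hP : (Lin S N u).erase v = ∅
  · apply C.lemA'
    intro z hz
    by_contra hne
    have : z ∈ (Lin S N u).erase v := mem_erase.2 ⟨hne, hz⟩
    rw [hP] at this
    exact absurd this (notMem_empty _)
  by_cases hQ : (Lin S N v).erase u = ∅
  · apply C.symm.lemA'
    intro z hz
    by_contra hne
    have : z ∈ (Lin S N v).erase u := mem_erase.2 ⟨hne, hz⟩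
    rw [hQ] at this
    exact absurd this (notMem_empty _)
  obtain ⟨p, hp⟩ := nonempty_iff_ne_empty.2 hP
  obtain ⟨q, hq⟩ := nonempty_iff_ne_empty.2 hQ
  have h1 : 1 ≤ ((Lin S N u).erase v).card := card_pos.2 ⟨p, hp⟩
  have h2 : 1 ≤ ((Lin S N v).erase u).card := card_pos.2 ⟨q, hq⟩
  have h3 := C.card_Lin_u
  have h4 := C.card_Lin_v
  have h5 := C.sum_RR'
  have hvu : v ∈ S.erase u := mem_erase.2 ⟨C.I.ne.symm, C.I.hv⟩
  have huv : u ∈ S.erase v := mem_erase.2 ⟨C.I.ne, C.I.hu⟩
  have hsplit : ∑ y ∈ S, RR S N f u v y = RR S N f u v u + (RR S N f u v v +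
      ∑ y ∈ (S.erase u).erase v, RR S N f u v y) := by
    rw [← add_sum_erase S _ C.I.hu, ← add_sum_erase (S.erase u) _ hvu]
  -- `u` and `v` have no common in-neighbour
  have hcom : (Com S N v u).card = 0 := by
    rw [card_eq_zero, eq_empty_iff_forall_notMem]
    intro z hz
    rw [mem_Com] at hz
    apply C.disj (h := z)
    · exact mem_erase.2 ⟨fun hh => hz.2.1 (hh ▸ hz.2.2.1), mem_Lin.2 ⟨hz.1, hz.2.1, hz.2.2.2⟩⟩
    · exact mem_erase.2 ⟨fun hh => hz.2.1 (hh ▸ hz.2.2.2), mem_Lin.2 ⟨hz.1, hz.2.1, hz.2.2.1⟩⟩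
  have hom0 : om S N f u v v u = 0 := by rw [C.om_uv, hcom]; rfl
  have hRu : RR S N f u v u = ∑ x ∈ (S.erase u).erase v, om S N f u v u x := by
    unfold RR
    rw [← add_sum_erase (S.erase u) _ hvu, hom0, zero_add]
    exact sum_congr rfl fun x _ => om_comm _ _
  have hRv : RR S N f u v v = ∑ x ∈ (S.erase u).erase v, om S N f u v v x := by
    unfold RR
    rw [← add_sum_erase (S.erase v) _ huv, om_comm u v, hom0, zero_add, erase_right_comm]
    exact sum_congr rfl fun x _ => om_comm _ _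
  have hle : ∀ y ∈ (S.erase u).erase v, om S N f u v u y + om S N f u v v y ≤
      RR S N f u v y := by
    intro y hy
    have hyv := ne_of_mem_erase hy
    have hyu := ne_of_mem_erase (mem_of_mem_erase hy)
    have hyS := mem_of_mem_erase (mem_of_mem_erase hy)
    have : ∑ w ∈ ({u, v} : Finset V), om S N f u v w y ≤ RR S N f u v y := by
      unfold RR
      apply sum_le_sum_of_subset_of_nonneg
      · intro w hw
        simp only [mem_insert, mem_singleton] at hw
        rcases hw with rfl | rfl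
        · exact mem_erase.2 ⟨hyu.symm, C.I.hu⟩
        · exact mem_erase.2 ⟨hyv.symm, C.I.hv⟩
      · intro w hw _
        exact C.om_nonneg (mem_of_mem_erase hw) hyS (ne_of_mem_erase hw)
    rwa [sum_pair C.I.ne] at this
  have hsum := sum_le_sum hle
  rw [sum_add_distrib, ← hRu, ← hRv] at hsum
  have h6 : RR S N f u v u = 1 := by omega
  have h7 : RR S N f u v v = 1 := by omega
  have h8 : ((Lin S N u).erase v).card = 1 := by
    have : (((Lin S N u).erase v).card : ℤ) = 1 := by rw [h3, h6]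
    exact_mod_cast this
  have h9 : ((Lin S N v).erase u).card = 1 := by
    have : (((Lin S N v).erase u).card : ℤ) = 1 := by rw [h4, h7]
    exact_mod_cast this
  have hP1 : ∀ z ∈ Lin S N u, z = v ∨ z = p := by
    intro z hz
    by_cases hzv : z = v
    · exact Or.inl hzv
    · exact Or.inr (card_le_one.1 h8.le z (mem_erase.2 ⟨hzv, hz⟩) p hp)
  have hQ1 : ∀ z ∈ Lin S N v, z = u ∨ z = q := by
    intro z hz
    by_cases hzu : z = u
    · exact Or.inl hzu
    · exact Or.inr (card_le_one.1 h9.le z (mem_erase.2 ⟨hzu, hz⟩) q hq)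
  obtain ⟨hpS, hpp, hup⟩ := mem_Lin.1 (mem_of_mem_erase hp)
  obtain ⟨hqS, hqq, hvq⟩ := mem_Lin.1 (mem_of_mem_erase hq)
  have hpv : p ≠ v := ne_of_mem_erase hp
  have hqu : q ≠ u := ne_of_mem_erase hq
  have hpu : p ≠ u := fun h => C.nu (h ▸ hup)
  have hqv : q ≠ v := fun h => C.nv (h ▸ hvq)
  have hpq : p ≠ q := by
    rintro rfl
    exact C.disj hp hq
  have hvp : p ∈ N v := by
    obtain ⟨g, hg, hgp, hne⟩ := C.in_in hp
    rcases hP1 g hg with rfl | rfl
    · exact hgp
    · exact absurd rfl hne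
  have huq : q ∈ N u := by
    obtain ⟨g, hg, hgp, hne⟩ := C.symm.in_in hq
    rcases hQ1 g hg with rfl | rfl
    · exact hgp
    · exact absurd rfl hne
  have hpqN : q ∈ N p := by
    have h10 := C.com_nonempty C.I.hu huq C.nu (fun h => hqv h.2) (fun h => C.I.ne h.1)
    obtain ⟨g, hg⟩ := card_pos.1 (by omega : 0 < (Com S N u q).card)
    rw [mem_Com] at hg
    rcases hP1 g (mem_Lin.2 ⟨hg.1, hg.2.1, hg.2.2.1⟩) with rfl | rfl
    · exact absurd hvq (C.symm.no_back hg.2.2.2 hqu)
    · exact hg.2.2.2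
  have hqpN : p ∈ N q := by
    have h10 := C.com_nonempty C.I.hv hvp C.nv (fun h => C.I.ne h.1.symm) (fun h => hpu h.2)
    obtain ⟨g, hg⟩ := card_pos.1 (by omega : 0 < (Com S N v p).card)
    rw [mem_Com] at hg
    rcases hQ1 g (mem_Lin.2 ⟨hg.1, hg.2.1, hg.2.2.1⟩) with rfl | rfl
    · exact absurd hup (C.no_back hg.2.2.2 hpv)
    · exact hg.2.2.2
  have h10 := C.com_cycle hpS hpqN hqpN hpq (fun h => hpu h.1) (fun h => hpv h.1)
  -- the in-degree of `p` is at least 4
  have huNp : p ∉ N u := fun h => C.no_back h hpv hup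
  have hvNq : q ∉ N v := fun h => C.symm.no_back h hqu hvq
  have h11 : 4 ≤ (Lin S N p).card := by
    have h12 : insert v (insert q (Com S N p q)) ⊆ Lin S N p := by
      intro z hz
      rcases mem_insert.1 hz with rfl | hz
      · exact mem_Lin.2 ⟨C.I.hv, C.nv, hvp⟩
      rcases mem_insert.1 hz with rfl | hz
      · exact mem_Lin.2 ⟨hqS, hqq, hqpN⟩
      · rw [mem_Com] at hz
        exact mem_Lin.2 ⟨hz.1, hz.2.1, hz.2.2.1⟩
    have h13 := card_le_card h12
    rw [card_insert_of_notMem, card_insert_of_notMem] at h13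
    · omega
    · intro h; exact hqq (mem_Com.1 h).2.2.2
    · intro h
      rcases mem_insert.1 h with h | h
      · exact hqv h.symm
      · exact hvNq (mem_Com.1 h).2.2.2
  -- but the deviation at `p` is not positive
  have hpmem : p ∈ (S.erase u).erase v := mem_erase.2 ⟨hpv, mem_erase.2 ⟨hpu, hpS⟩⟩
  have heq : ∑ y ∈ (S.erase u).erase v, (om S N f u v u y + om S N f u v v y) =
      ∑ y ∈ (S.erase u).erase v, RR S N f u v y := by
    rw [sum_add_distrib, ← hRu, ← hRv]; omega
  have hpeq : om S N f u v u p + om S N f u v v p = RR S N f u v p :=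
    (sum_eq_sum_iff_of_le hle).1 heq p hpmem
  have h12 : RR S N f u v p = (Lin S N p).card - 3 := by
    rw [C.RR_eq' hpS, if_neg (by tauto)]; ring
  have h13 : om S N f u v u p ≤ 0 := by
    rw [C.om_eq C.I.hu hpS]
    have h14 : (Com S N u p).card ≤ 1 := by
      rw [card_le_one]
      have : ∀ z ∈ Com S N u p, z = v := by
        intro z hz
        rw [mem_Com] at hz
        rcases hP1 z (mem_Lin.2 ⟨hz.1, hz.2.1, hz.2.2.1⟩) with h | h
        · exact h
        · subst h; exact absurd hz.2.2.2 hpp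
      intro a ha b hb
      rw [this a ha, this b hb]
    have h15 : aa N p u = 1 := by unfold aa; rw [if_pos hup]
    have h16 : aa N u p = 0 := by unfold aa; rw [if_neg huNp]
    have h17 : ee u v u p = 0 := by
      unfold ee; rw [if_neg]; rintro (⟨_, h⟩ | ⟨_, h⟩)
      · exact hpv h
      · exact hpu h
    rw [h15, h16, h17]
    have : ((Com S N u p).card : ℤ) ≤ 1 := by exact_mod_cast h14
    linarith
  have h14 : om S N f u v v p ≤ 0 := by
    rw [C.om_eq C.I.hv hpS]
    have h14 : (Com S N v p).card ≤ 1 := by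
      rw [card_le_one]
      have : ∀ z ∈ Com S N v p, z = q := by
        intro z hz
        rw [mem_Com] at hz
        rcases hQ1 z (mem_Lin.2 ⟨hz.1, hz.2.1, hz.2.2.1⟩) with h | h
        · subst h; exact absurd hz.2.2.2 huNp
        · exact h
      intro a ha b hb
      rw [this a ha, this b hb]
    have h15 : aa N v p = 1 := by unfold aa; rw [if_pos hvp]
    have h16 := aa_nonneg (N := N) p v
    have h17 : ee u v v p = 0 := by
      unfold ee; rw [if_neg]; rintro (⟨h, _⟩ | ⟨_, h⟩)
      · exact C.I.ne h.symm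
      · exact hpu h
    rw [h15, h17]
    have : ((Com S N v p).card : ℤ) ≤ 1 := by exact_mod_cast h14
    linarith
  omega

/-- the main induction -/
theorem Inst.sep {S : Finset V} {N : V → Finset V} {f : V → V} {u v : V}
    (I : Inst S N f u v) : Sep S N u v := by
  suffices h : ∀ k : ℕ, ∀ (S : Finset V) (N : V → Finset V) (f : V → V) (u v : V),
      Inst S N f u v → mu S N = k → Sep S N u v from h _ S N f u v I rfl
  intro k
  induction k using Nat.strong_induction_on with
  | _ k ih =>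
    intro S N f u v I hk
    by_contra hno
    have C : MinCE S N f u v := ⟨I, fun S' N' f' u' v' I' hlt => by
      rw [hk] at hlt
      exact ih _ hlt S' N' f' u' v' I' rfl, hno⟩
    exact C.contradiction

end Q5.Friendly
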