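import Pool.Agent.Q5.Friendly.Reduce

set_option autoImplicit false

namespace Q5.Friendly

open Finset

variable {V : Type*} [DecidableEq V]
variable {S : Finset V} {N : V → Finset V} {f : V → V} {u v : V}

theorem split_good {M : Finset V} (hM : Good N M) {a p q : V} (ha : a ∈ M) (hpq : p ≠ q)
    (hp : p ∈ N p) (hq : q ∈ N q) (hqM : q ∈ M) :
    ∃ M' ⊆ M, Good N M' ∧ a ∈ M' ∧ (p ∉ M' ∨ q ∉ M') := by
  classical
  set C : Finset V := M.filter (fun x => ∃ B ⊆ M.erase p, x ∈ B ∧ Good N B) with hC
  have hCsub : C ⊆ M := filter_subset _ _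
  have hpC : p ∉ C := by
    intro h
    obtain ⟨_, B, hB, hpB, _⟩ := mem_filter.1 h
    exact absurd (hB hpB) (by simp)
  have hCB : ∀ B ⊆ M.erase p, Good N B → B ⊆ C := by
    intro B hB hG x hx
    exact mem_filter.2 ⟨mem_of_mem_erase (hB hx), B, hB, hx, hG⟩
  have hCG : Good N C := by
    intro x hx
    obtain ⟨_, B, hB, hxB, hG⟩ := mem_filter.1 hx
    obtain ⟨y, hy, hyB⟩ := hG x hxB
    exact ⟨y, hy, hCB B hB hG hyB⟩
  have hqC : q ∈ C := by
    apply hCB {q}
    · intro x hx; rw [mem_singleton.1 hx]; exact mem_erase.2 ⟨hpq.symm, hqM⟩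
    · intro x hx; rw [mem_singleton.1 hx]; exact ⟨q, hq, mem_singleton_self q⟩
    · exact mem_singleton_self q
  by_cases haC : a ∈ C
  · exact ⟨C, hCsub, hCG, haC, Or.inl hpC⟩
  · refine ⟨M \ C, sdiff_subset, ?_, mem_sdiff.2 ⟨ha, haC⟩, Or.inr fun h => (mem_sdiff.1 h).2 hqC⟩
    intro x hx
    obtain ⟨hxM, hxC⟩ := mem_sdiff.1 hx
    by_contra hcon
    push Not at hcon
    have hxp : x ≠ p := by
      rintro rfl
      exact hcon x hp (mem_sdiff.2 ⟨hxM, hxC⟩)
    obtain ⟨y, hy, hyM⟩ := hM x hxM
    have hyC : y ∈ C := by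
      by_contra h
      exact hcon y hy (mem_sdiff.2 ⟨hyM, h⟩)
    apply hxC
    apply hCB (insert x C)
    · intro z hz
      rcases mem_insert.1 hz with rfl | hz
      · exact mem_erase.2 ⟨hxp, hxM⟩
      · exact mem_erase.2 ⟨fun h => hpC (h ▸ hz), hCsub hz⟩
    · intro z hz
      rcases mem_insert.1 hz with rfl | hz
      · exact ⟨y, hy, mem_insert_of_mem hyC⟩
      · obtain ⟨w, hw, hwC⟩ := hCG z hz
        exact ⟨w, hw, mem_insert_of_mem hwC⟩
    · exact mem_insert_self _ _

/-- both starts have the same two out-neighbours -/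
theorem MinCE.ab_false (C : MinCE S N f u v) (h : (N u).erase v = (N v).erase u) : False := by
  classical
  have hI := C.I
  have hc : ((N u).erase v).card = 2 := by
    have := card_erase_add_one hI.vu
    have := C.card_u
    omega
  obtain ⟨a, b, hab, hAB⟩ := card_eq_two.1 hc
  have ha : a ∈ (N u).erase v := by rw [hAB]; simp
  have hb : b ∈ (N u).erase v := by rw [hAB]; simp
  have ha' : a ∈ (N v).erase u := h ▸ ha
  have hb' : b ∈ (N v).erase u := h ▸ hb
  rw [mem_erase] at ha hb ha' hb'
  obtain ⟨hav, hau⟩ := ha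
  obtain ⟨hbv, hbu⟩ := hb
  obtain ⟨hau', hav'⟩ := ha'
  obtain ⟨hbu', hbv'⟩ := hb'
  have haS : a ∈ S := hI.sub u hI.hu hau
  have hbS : b ∈ S := hI.sub u hI.hu hbu
  set N0 : V → Finset V := fun z => if z = u then {u} else if z = v then {v} else N z with hN0
  set N2 := addArcs N0 a b with hN2
  have h0u : N0 u = {u} := by simp [hN0]
  have h0v : N0 v = {v} := by simp [hN0, hI.ne.symm]
  have h0 : ∀ z, z ≠ u → z ≠ v → N0 z = N z := fun z h1 h2 => by simp [hN0, h1, h2]
  have h2u : N2 u = {u} := by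
    rw [hN2]; unfold addArcs; rw [if_neg hau'.symm, if_neg hbu'.symm, h0u]
  have h2v : N2 v = {v} := by
    rw [hN2]; unfold addArcs; rw [if_neg hav.symm, if_neg hbv.symm, h0v]
  have h2 : ∀ z, z ≠ u → z ≠ v → N z ⊆ N2 z := by
    intro z h1 h2
    rw [← h0 z h1 h2]
    exact subset_addArcs _ _ _ _
  have h2S : ∀ z ∈ S, N2 z ⊆ S := by
    intro z hz
    have h0S : N0 z ⊆ S := by
      by_cases hzu : z = u
      · rw [hzu, h0u]; exact singleton_subset_iff.2 hI.hu
      by_cases hzv : z = v
      · rw [hzv, h0v]; exact singleton_subset_iff.2 hI.hv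
      rw [h0 z hzu hzv]; exact hI.sub z hz
    rw [hN2]; unfold addArcs
    split_ifs
    · exact insert_subset hbS h0S
    · exact insert_subset haS h0S
    · exact h0S
  have hsep : Sep S N2 a b := by
    apply C.IH S N2 f a b
    · refine ⟨haS, hbS, hab, ?_, ?_, h2S, ?_, ?_⟩
      · simp [hN2, addArcs]
      · simp only [hN2, addArcs, if_neg hab.symm, if_true]; exact mem_insert_self _ _
      · intro z hz
        by_cases hzu : z = u
        · left; rw [hzu, h2u]; exact mem_singleton_self _
        by_cases hzv : z = v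
        · left; rw [hzv, h2v]; exact mem_singleton_self _
        have h3 := h2 z hzu hzv
        have h4 := card_le_card h3
        rcases hI.deg z hz with h5 | h5 | ⟨h5, h6, h7⟩
        · exact Or.inl (h3 h5)
        · right; left; omega
        · rcases (by omega : 3 ≤ (N2 z).card ∨ (N2 z).card = 2) with h8 | h8
          · exact Or.inr (Or.inl h8)
          · refine Or.inr (Or.inr ⟨h8, h3 h6, ?_⟩)
            have hfu : f z ≠ u := fun hf => C.nu (hf ▸ h7)
            have hfv : f z ≠ v := fun hf => C.nv (hf ▸ h7)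
            exact h2 (f z) hfu hfv h7
      · intro z hz z' hz' hzz hzz' hc hc' hff
        have hzu : z ≠ u := fun hh => hzz (by rw [hh, h2u]; exact mem_singleton_self _)
        have hzv : z ≠ v := fun hh => hzz (by rw [hh, h2v]; exact mem_singleton_self _)
        have hzu' : z' ≠ u := fun hh => hzz' (by rw [hh, h2u]; exact mem_singleton_self _)
        have hzv' : z' ≠ v := fun hh => hzz' (by rw [hh, h2v]; exact mem_singleton_self _)
        have h3 := h2 z hzu hzv
        have h3' := h2 z' hzu' hzv'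
        have h4 := card_le_card h3
        have h4' := card_le_card h3'
        exact hI.inj z hz z' hz' (fun hh => hzz (h3 hh)) (fun hh => hzz' (h3' hh)) (by omega)
          (by omega) hff
    · unfold mu
      have key : ∀ z ∈ S, (N2 z).card + (if z = u then 2 else 0) + (if z = v then 2 else 0) ≤
          (N z).card + (if z = a then 1 else 0) + (if z = b then 1 else 0) := by
        intro z _
        by_cases hzu : z = u
        · subst hzu
          rw [h2u, C.card_u, card_singleton, if_pos rfl, if_neg hI.ne, if_neg hau'.symm,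
            if_neg hbu'.symm]
        by_cases hzv : z = v
        · subst hzv
          rw [h2v, C.card_v, card_singleton, if_pos rfl, if_neg hI.ne.symm, if_neg hav.symm,
            if_neg hbv.symm]
        rw [if_neg hzu, if_neg hzv]
        have := card_addArcs N0 a b z
        rw [h0 z hzu hzv] at this
        omega
      have hs := sum_le_sum key
      simp only [sum_add_distrib] at hs
      rw [sum_ite_eq', sum_ite_eq', sum_ite_eq', sum_ite_eq', if_pos hI.hu, if_pos hI.hv,
        if_pos haS, if_pos hbS] at hs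
      omega
  -- lifting
  have hsep0 : Sep S N0 a b := sep_add hsep
  clear hsep
  have lift : ∀ U W : Finset V, U ⊆ S → W ⊆ S → Disjoint U W → (a ∈ U ∧ b ∈ W ∨ b ∈ U ∧ a ∈ W) →
      Good N0 U → Good N0 W → v ∉ U → u ∉ W → False := by
    intro U W hU hW hd hm hGU hGW hvU huW
    apply C.no
    refine ⟨insert u U, insert v W, insert_subset hI.hu hU, insert_subset hI.hv hW, ?_,
      mem_insert_self _ _, mem_insert_self _ _, ?_, ?_⟩
    · rw [disjoint_left]
      intro x hx hx'
      rcases mem_insert.1 hx with rfl | hx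
      · rcases mem_insert.1 hx' with h4 | h4
        · exact hI.ne h4
        · exact huW h4
      · rcases mem_insert.1 hx' with rfl | hx'
        · exact hvU hx
        · exact disjoint_left.1 hd hx hx'
    · intro x hx
      by_cases hxu : x = u
      · subst hxu
        rcases hm with ⟨h4, _⟩ | ⟨h4, _⟩
        · exact ⟨a, hau, mem_insert_of_mem h4⟩
        · exact ⟨b, hbu, mem_insert_of_mem h4⟩
      · have hxU : x ∈ U := (mem_insert.1 hx).resolve_left hxu
        have hxv : x ≠ v := fun hh => hvU (hh ▸ hxU)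
        obtain ⟨y, hy, hyU⟩ := hGU x hxU
        rw [h0 x hxu hxv] at hy
        exact ⟨y, hy, mem_insert_of_mem hyU⟩
    · intro x hx
      by_cases hxv : x = v
      · subst hxv
        rcases hm with ⟨_, h4⟩ | ⟨_, h4⟩
        · exact ⟨b, hbv', mem_insert_of_mem h4⟩
        · exact ⟨a, hav', mem_insert_of_mem h4⟩
      · have hxW : x ∈ W := (mem_insert.1 hx).resolve_left hxv
        have hxu : x ≠ u := fun hh => huW (hh ▸ hxW)
        obtain ⟨y, hy, hyW⟩ := hGW x hxW
        rw [h0 x hxu hxv] at hy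
        exact ⟨y, hy, mem_insert_of_mem hyW⟩
  have huu : u ∈ N0 u := by rw [h0u]; exact mem_singleton_self _
  have hvv : v ∈ N0 v := by rw [h0v]; exact mem_singleton_self _
  obtain ⟨U, W, hU, hW, hd, haU, hbW, hGU, hGW⟩ := hsep0
  by_cases h1 : v ∉ U ∧ u ∉ W
  · exact lift U W hU hW hd (Or.inl ⟨haU, hbW⟩) hGU hGW h1.1 h1.2
  by_cases h3 : v ∉ W ∧ u ∉ U
  · exact lift W U hW hU hd.symm (Or.inr ⟨hbW, haU⟩) hGW hGU h3.1 h3.2
  -- both `u` and `v` in the same set
  have hd' := fun x (hx : x ∈ U) (hx' : x ∈ W) => disjoint_left.1 hd hx hx'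
  by_cases huU : u ∈ U
  · have huW : u ∉ W := fun hh => hd' u huU hh
    have hvU : v ∈ U := by
      by_contra hh; exact h1 ⟨hh, huW⟩
    have hvW : v ∉ W := fun hh => hd' v hvU hh
    obtain ⟨M, hM, hGM, haM, hor⟩ := split_good hGU haU hI.ne huu hvv hvU
    have hdM : Disjoint M W := disjoint_of_subset_left hM hd
    rcases hor with hor | hor
    · exact lift W M hW (hM.trans hU) hdM.symm (Or.inr ⟨hbW, haM⟩) hGW hGM hvW hor
    · exact lift M W (hM.trans hU) hW hdM (Or.inl ⟨haM, hbW⟩) hGM hGW hor huW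
  · have hvW : v ∈ W := by
      by_contra hh; exact h3 ⟨hh, huU⟩
    have hvU : v ∉ U := fun hh => hd' v hh hvW
    have huW : u ∈ W := by
      by_contra hh; exact h1 ⟨hvU, hh⟩
    obtain ⟨M, hM, hGM, hbM, hor⟩ := split_good hGW hbW hI.ne huu hvv hvW
    have hdM : Disjoint U M := disjoint_of_subset_right hM hd
    rcases hor with hor | hor
    · exact lift U M hU (hM.trans hW) hdM (Or.inl ⟨haU, hbM⟩) hGU hGM hvU hor
    · exact lift M U (hM.trans hW) hU hdM.symm (Or.inr ⟨hbM, haU⟩) hGM hGU hor huU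

end Q5.Friendly
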