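import Pool.Agent.Q5.Friendly.Basic

set_option autoImplicit false

namespace Q5.Friendly

open Finset

variable {V : Type*} [DecidableEq V]
variable {S : Finset V} {N : V → Finset V} {f : V → V} {u v : V}

/-- a smallest counterexample -/
structure MinCE (S : Finset V) (N : V → Finset V) (f : V → V) (u v : V) : Prop where
  I : Inst S N f u v
  IH : ∀ (S' : Finset V) (N' : V → Finset V) (f' : V → V) (u' v' : V), Inst S' N' f' u' v' →
      mu S' N' < mu S N → Sep S' N' u' v'
  no : ¬ Sep S N u v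

theorem MinCE.symm (C : MinCE S N f u v) : MinCE S N f v u :=
  ⟨C.I.symm, C.IH, fun h => C.no h.symm⟩

theorem sep_compl (I : Inst S N f u v) (U : Finset V) (hU : U ⊆ S) (hu : u ∈ U) (hv : v ∉ U)
    (hG : Good N U) (h : ∀ x ∈ S, x ∉ U → ∃ y ∈ N x, y ∉ U) : Sep S N u v := by
  refine ⟨U, S \ U, hU, sdiff_subset, disjoint_sdiff, hu, mem_sdiff.2 ⟨I.hv, hv⟩, hG, ?_⟩
  intro x hx
  obtain ⟨hxS, hxU⟩ := mem_sdiff.1 hx
  obtain ⟨y, hy, hyU⟩ := h x hxS hxU
  exact ⟨y, hy, mem_sdiff.2 ⟨I.sub x hxS hy, hyU⟩⟩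

theorem MinCE.nu (C : MinCE S N f u v) : u ∉ N u := by
  intro huu
  apply C.no
  apply sep_compl C.I {u}
  · intro x hx; rw [mem_singleton.1 hx]; exact C.I.hu
  · exact mem_singleton_self u
  · rw [mem_singleton]; exact C.I.ne.symm
  · intro x hx; rw [mem_singleton.1 hx]; exact ⟨u, huu, mem_singleton_self u⟩
  · intro x hx hxu
    rw [mem_singleton] at hxu
    have key : 2 ≤ (N x).card → ∃ y ∈ N x, y ∉ ({u} : Finset V) := by
      intro h
      obtain ⟨y, hy, hyu⟩ := exists_mem_ne (by omega : 1 < (N x).card) u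
      exact ⟨y, hy, by rwa [mem_singleton]⟩
    rcases C.I.deg x hx with h | h | h
    · exact ⟨x, h, by rwa [mem_singleton]⟩
    · exact key (by omega)
    · exact key (by omega)

theorem MinCE.nv (C : MinCE S N f u v) : v ∉ N v := C.symm.nu

/-- loops have no other arcs -/
theorem MinCE.loop (C : MinCE S N f u v) {x : V} (hx : x ∈ S) (hxx : x ∈ N x) : N x = {x} := by
  by_contra hne
  have hxu : x ≠ u := fun h => C.nu (h ▸ hxx)
  have hxv : x ≠ v := fun h => C.nv (h ▸ hxx)
  apply C.no
  set N' : V → Finset V := Function.update N x {x} with hN'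
  have h0 : ∀ z, N' z ⊆ N z := by
    intro z
    by_cases hz : z = x
    · subst hz; rw [hN', Function.update_self]; exact singleton_subset_iff.2 hxx
    · rw [hN', Function.update_of_ne hz]
  apply sep_mono h0
  have h1 : ∀ z, z ≠ x → N' z = N z := fun z hz => by rw [hN', Function.update_of_ne hz]
  have h2 : N' x = {x} := by rw [hN', Function.update_self]
  have h3 : ∀ z, z ∈ N z → z ∈ N' z := by
    intro z hz
    by_cases hzx : z = x
    · subst hzx; rw [h2]; exact mem_singleton_self _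
    · rwa [h1 z hzx]
  apply C.IH S N' f u v
  · refine ⟨C.I.hu, C.I.hv, C.I.ne, ?_, ?_, ?_, ?_, ?_⟩
    · rw [h1 u hxu.symm]; exact C.I.vu
    · rw [h1 v hxv.symm]; exact C.I.uv
    · exact fun z hz => (h0 z).trans (C.I.sub z hz)
    · intro z hz
      by_cases hzx : z = x
      · left; subst hzx; rw [h2]; exact mem_singleton_self _
      · rw [h1 z hzx]
        rcases C.I.deg z hz with h | h | ⟨h, h', h''⟩
        · exact Or.inl h
        · exact Or.inr (Or.inl h)
        · exact Or.inr (Or.inr ⟨h, h', h3 _ h''⟩)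
    · intro z hz z' hz' hzz hzz' hc hc' hff
      have hzx : z ≠ x := fun h => hzz (by rw [h, h2]; exact mem_singleton_self _)
      have hzx' : z' ≠ x := fun h => hzz' (by rw [h, h2]; exact mem_singleton_self _)
      rw [h1 z hzx] at hzz hc
      rw [h1 z' hzx'] at hzz' hc'
      exact C.I.inj z hz z' hz' hzz hzz' hc hc' hff
  · unfold mu
    have : ∑ z ∈ S, (N' z).card < ∑ z ∈ S, (N z).card := by
      apply sum_lt_sum (fun z _ => card_le_card (h0 z))
      refine ⟨x, hx, ?_⟩
      apply card_lt_card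
      rw [h2]
      exact Finset.ssubset_iff_subset_ne.2 ⟨singleton_subset_iff.2 hxx, fun h => hne h.symm⟩
    omega

theorem MinCE.card_le (C : MinCE S N f u v) {x : V} (hx : x ∈ S) (hxx : x ∉ N x) :
    (N x).card ≤ 3 := by
  by_contra hc
  push Not at hc
  obtain ⟨w, hw, hwu, hwv⟩ : ∃ w ∈ N x, w ≠ u ∧ w ≠ v := by
    have : ((N x).erase u).erase v |>.Nonempty := by
      rw [← card_pos]
      have h1 := pred_card_le_card_erase (s := N x) (a := u)
      have h2 := pred_card_le_card_erase (s := (N x).erase u) (a := v)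
      omega
    obtain ⟨w, hw⟩ := this
    simp only [mem_erase] at hw
    exact ⟨w, hw.2.2, hw.2.1, hw.1⟩
  apply C.no
  set N' : V → Finset V := Function.update N x ((N x).erase w) with hN'
  have h1 : ∀ z, z ≠ x → N' z = N z := fun z hz => by rw [hN', Function.update_of_ne hz]
  have h2 : N' x = (N x).erase w := by rw [hN', Function.update_self]
  have h0 : ∀ z, N' z ⊆ N z := by
    intro z
    by_cases hz : z = x
    · subst hz; rw [h2]; exact erase_subset _ _
    · rw [h1 z hz]
  have h4 : (N' x).card + 1 = (N x).card := by rw [h2]; exact card_erase_add_one hw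
  apply sep_mono h0
  have h3 : ∀ z, z ∈ N z → z ∈ N' z := by
    intro z hz
    have hzx : z ≠ x := fun h => hxx (h ▸ hz)
    rwa [h1 z hzx]
  have h5 : ∀ z t, t ∈ N z → (t = u ∨ t = v) → t ∈ N' z := by
    intro z t ht htt
    by_cases hzx : z = x
    · subst hzx; rw [h2, mem_erase]
      refine ⟨?_, ht⟩
      rcases htt with rfl | rfl
      · exact hwu.symm
      · exact hwv.symm
    · rwa [h1 z hzx]
  apply C.IH S N' f u v
  · refine ⟨C.I.hu, C.I.hv, C.I.ne, h5 _ _ C.I.vu (Or.inr rfl), h5 _ _ C.I.uv (Or.inl rfl),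
      fun z hz => (h0 z).trans (C.I.sub z hz), ?_, ?_⟩
    · intro z hz
      by_cases hzx : z = x
      · subst hzx; right; left; omega
      · rw [h1 z hzx]
        rcases C.I.deg z hz with h | h | ⟨h, h', h''⟩
        · exact Or.inl h
        · exact Or.inr (Or.inl h)
        · exact Or.inr (Or.inr ⟨h, h', h3 _ h''⟩)
    · intro z hz z' hz' hzz hzz' hc hc' hff
      have hzx : z ≠ x := by rintro rfl; omega
      have hzx' : z' ≠ x := by rintro rfl; omega
      rw [h1 z hzx] at hzz hc
      rw [h1 z' hzx'] at hzz' hc'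
      exact C.I.inj z hz z' hz' hzz hzz' hc hc' hff
  · unfold mu
    have : ∑ z ∈ S, (N' z).card < ∑ z ∈ S, (N z).card := by
      apply sum_lt_sum (fun z _ => card_le_card (h0 z))
      exact ⟨x, hx, by omega⟩
    omega

theorem MinCE.deg' (C : MinCE S N f u v) {x : V} (hx : x ∈ S) (hxx : x ∉ N x) :
    (N x).card = 3 ∨ ((N x).card = 2 ∧ f x ∈ N x ∧ f x ∈ N (f x)) := by
  have h1 := C.card_le hx hxx
  rcases C.I.deg x hx with h | h | h
  · exact absurd h hxx
  · left; omega
  · right; exact h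

/-- no 2-cycle through a start, except the one between the starts -/
theorem MinCE.no_back (C : MinCE S N f u v) {a : V} (ha : a ∈ N u) (hav : a ≠ v) : u ∉ N a := by
  intro hua
  have hau : a ≠ u := fun h => C.nu (h ▸ ha)
  have haS : a ∈ S := C.I.sub u C.I.hu ha
  have haa : a ∉ N a := by
    intro h
    have := C.loop haS h
    rw [this, mem_singleton] at hua
    exact hau hua.symm
  apply C.no
  apply sep_compl C.I {u, a}
  · intro x hx
    rcases mem_insert.1 hx with rfl | hx
    · exact C.I.hu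
    · rw [mem_singleton.1 hx]; exact haS
  · exact mem_insert_self _ _
  · simp only [mem_insert, mem_singleton, not_or]; exact ⟨C.I.ne.symm, fun h => hav h.symm⟩
  · intro x hx
    rcases mem_insert.1 hx with rfl | hx
    · exact ⟨a, ha, by simp⟩
    · rw [mem_singleton.1 hx]; exact ⟨u, hua, by simp⟩
  · intro x hx hxU
    have key : 3 ≤ (N x).card → ∃ y ∈ N x, y ∉ ({u, a} : Finset V) := by
      intro h
      by_contra hcon
      push Not at hcon
      have h1 : N x ⊆ {u, a} := hcon
      have := card_le_card h1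
      have h2 : ({u, a} : Finset V).card ≤ 2 := card_le_two
      omega
    rcases C.I.deg x hx with h | h | ⟨h, h', h''⟩
    · exact ⟨x, h, hxU⟩
    · exact key h
    · refine ⟨f x, h', ?_⟩
      simp only [mem_insert, mem_singleton, not_or]
      exact ⟨fun hf => C.nu (hf ▸ h''), fun hf => haa (hf ▸ h'')⟩

/-- the starts have three out-neighbours -/
theorem MinCE.card_u (C : MinCE S N f u v) : (N u).card = 3 := by
  rcases C.deg' C.I.hu C.nu with h | ⟨h, h', h''⟩
  · exact h
  exfalso
  have htv : f u ≠ v := fun hf => C.nv (hf ▸ h'')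
  have htu : f u ≠ u := fun hf => C.nu (hf ▸ h'')
  apply C.no
  apply sep_compl C.I {u, f u}
  · intro x hx
    rcases mem_insert.1 hx with rfl | hx
    · exact C.I.hu
    · rw [mem_singleton.1 hx]; exact C.I.sub u C.I.hu h'
  · exact mem_insert_self _ _
  · simp only [mem_insert, mem_singleton, not_or]; exact ⟨C.I.ne.symm, fun h => htv h.symm⟩
  · intro x hx
    rcases mem_insert.1 hx with rfl | hx
    · exact ⟨f x, h', by simp⟩
    · rw [mem_singleton.1 hx]; exact ⟨f u, h'', by simp⟩
  · intro x hx hxU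
    have hxu : x ≠ u := by rintro rfl; exact hxU (mem_insert_self _ _)
    have key : 3 ≤ (N x).card → ∃ y ∈ N x, y ∉ ({u, f u} : Finset V) := by
      intro h
      by_contra hcon
      push Not at hcon
      have h1 : N x ⊆ {u, f u} := hcon
      have := card_le_card h1
      have h2 : ({u, f u} : Finset V).card ≤ 2 := card_le_two
      omega
    by_cases hxx : x ∈ N x
    · exact ⟨x, hxx, hxU⟩
    rcases C.deg' hx hxx with h3 | ⟨h3, h3', h3''⟩
    · exact key (by omega)
    · refine ⟨f x, h3', ?_⟩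
      simp only [mem_insert, mem_singleton, not_or]
      refine ⟨fun hf => C.nu (hf ▸ h3''), fun hf => hxu ?_⟩
      exact C.I.inj x hx u C.I.hu hxx C.nu (by omega) (by omega) hf

theorem MinCE.card_v (C : MinCE S N f u v) : (N v).card = 3 := C.symm.card_u

/-- every other vertex has an in-neighbour -/
theorem MinCE.exists_in (C : MinCE S N f u v) {y : V} (hy : y ∈ S) (hyu : y ≠ u) (hyv : y ≠ v) :
    ∃ x ∈ S, x ≠ y ∧ y ∈ N x := by
  by_contra hcon
  push Not at hcon
  apply C.no
  have h : Sep (S.erase y) N u v := by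
    apply C.IH (S.erase y) N f u v
    · refine ⟨mem_erase.2 ⟨hyu.symm, C.I.hu⟩, mem_erase.2 ⟨hyv.symm, C.I.hv⟩, C.I.ne, C.I.vu,
        C.I.uv, ?_, ?_, ?_⟩
      · intro x hx w hw
        obtain ⟨hxy, hxS⟩ := mem_erase.1 hx
        refine mem_erase.2 ⟨?_, C.I.sub x hxS hw⟩
        rintro rfl
        exact hcon x hxS hxy hw
      · intro x hx
        exact C.I.deg x (mem_of_mem_erase hx)
      · intro x hx x' hx'
        exact C.I.inj x (mem_of_mem_erase hx) x' (mem_of_mem_erase hx')
    · unfold mu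
      have h1 := card_erase_add_one hy
      have h2 : ∑ x ∈ S.erase y, (N x).card ≤ ∑ x ∈ S, (N x).card :=
        sum_le_sum_of_subset (erase_subset _ _)
      omega
  obtain ⟨U, W, h1, h2, h3⟩ := h
  exact ⟨U, W, h1.trans (erase_subset _ _), h2.trans (erase_subset _ _), h3⟩

/-- the common in-neighbours -/
def Com (S : Finset V) (N : V → Finset V) (x y : V) : Finset V :=
  S.filter (fun z => z ∉ N z ∧ x ∈ N z ∧ y ∈ N z)

theorem mem_Com {x y z : V} : z ∈ Com S N x y ↔ z ∈ S ∧ z ∉ N z ∧ x ∈ N z ∧ y ∈ N z := by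
  simp [Com]

theorem MinCE.com_nonempty (C : MinCE S N f u v) {x y : V} (hx : x ∈ S) (hxy : y ∈ N x)
    (hxx : x ∉ N x) (h1 : ¬(x = u ∧ y = v)) (h2 : ¬(x = v ∧ y = u)) :
    1 ≤ (Com S N x y).card := by
  by_contra hcon
  have h0 : Com S N x y = ∅ := by rw [← card_eq_zero]; omega
  have h3 : ∀ z ∈ S, z ∉ N z → x ∈ N z → y ∈ N z → False := by
    intro z hz hzz hxz hyz
    have : z ∈ Com S N x y := mem_Com.2 ⟨hz, hzz, hxz, hyz⟩
    rw [h0] at this
    exact absurd this (notMem_empty _)
  apply C.no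
  refine contract C.I C.IH hx hxy hxx h1 h2 ?_ ?_
  · intro z hz z' hz' hzz hzz' hxz hyz
    exact (h3 z hz hzz hxz hyz).elim
  · intro z hz hzz hxz hyz
    exact (h3 z hz hzz hxz hyz).elim

theorem MinCE.com_two (C : MinCE S N f u v) {x y : V} (hx : x ∈ S) (hxy : y ∈ N x)
    (hxx : x ∉ N x) (h1 : ¬(x = u ∧ y = v)) (h2 : ¬(x = v ∧ y = u))
    (hy : x ∈ N y ∨ y ∈ N y)
    (hfree : ∀ z' ∈ S, z' ≠ x → z' ∉ N z' → (N z').card < 3 → f z' ≠ y) :
    2 ≤ (Com S N x y).card := by
  by_contra hcon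
  have h3 : ∀ z ∈ Com S N x y, ∀ z' ∈ Com S N x y, z = z' :=
    card_le_one.1 (by omega)
  apply C.no
  refine contract C.I C.IH hx hxy hxx h1 h2 ?_ ?_
  · intro z hz z' hz' hzz hzz' hxz hyz hxz' hyz'
    exact h3 z (mem_Com.2 ⟨hz, hzz, hxz, hyz⟩) z' (mem_Com.2 ⟨hz', hzz', hxz', hyz'⟩)
  · intro z hz hzz hxz hyz
    exact ⟨hy, hfree⟩

theorem MinCE.com_cycle (C : MinCE S N f u v) {x y : V} (hx : x ∈ S) (hxy : y ∈ N x)
    (hyx : x ∈ N y) (hne : x ≠ y) (h1 : ¬(x = u ∧ y = v)) (h2 : ¬(x = v ∧ y = u)) :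
    2 ≤ (Com S N x y).card := by
  have hyS : y ∈ S := C.I.sub x hx hxy
  have hxx : x ∉ N x := by
    intro h
    rw [C.loop hx h, mem_singleton] at hxy
    exact hne hxy.symm
  have hyy : y ∉ N y := by
    intro h
    rw [C.loop hyS h, mem_singleton] at hyx
    exact hne hyx
  apply C.com_two hx hxy hxx h1 h2 (Or.inl hyx)
  intro z' hz' _ hzz' hc hf
  rcases C.deg' hz' hzz' with h | ⟨_, _, h⟩
  · omega
  · exact hyy (hf ▸ h)

end Q5.Friendly
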